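import Pool.Agent.Lib.MP_d439b2_co.VX.Spec

/-!
# MP_d439b2_co, VX/BadWL: the boundary of a bad set is well linked
-/

set_option autoImplicit false

namespace Pool.Agent.MPd439b2.VX

open Pool.Agent.MPd439b2

namespace BadWLAux

variable {α : Type} [DecidableEq α]

/-- a part of `Z` with a large boundary -/
theorem part {E Z Y₀ Y₁ : Finset (α × α)} (hu : Y₀ ∪ Y₁ = Z)
    (h : (bd E Z).card ≤ (bd E Y₀).card) :
    (bd E Z ∩ vs Y₁).card ≤ (vs Y₀ ∩ vs Y₁).card := by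
  have hs : E \ Y₀ ⊆ Y₁ ∪ (E \ Z) := by
    intro p hp
    rw [Finset.mem_sdiff] at hp
    rw [Finset.mem_union, Finset.mem_sdiff, ← hu, Finset.mem_union]
    tauto
  have hY0Z : Y₀ ⊆ Z := hu ▸ Finset.subset_union_left
  have hsub : bd E Y₀ ⊆ (vs Y₀ ∩ vs Y₁) ∪ (bd E Z \ vs Y₁) := by
    intro x hx
    unfold bd at hx
    rw [Finset.mem_inter] at hx
    have h1 := vs_mono hs hx.2
    rw [vs_union, Finset.mem_union] at h1
    by_cases h2 : x ∈ vs Y₁
    · exact Finset.mem_union_left _ (Finset.mem_inter.2 ⟨hx.1, h2⟩)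
    · refine Finset.mem_union_right _ (Finset.mem_sdiff.2 ⟨?_, h2⟩)
      unfold bd
      exact Finset.mem_inter.2 ⟨vs_mono hY0Z hx.1, h1.resolve_left h2⟩
  have h3 := Finset.card_le_card hsub
  have h4 := Finset.card_union_le (vs Y₀ ∩ vs Y₁) (bd E Z \ vs Y₁)
  have h5 := Finset.card_sdiff_add_card_inter (bd E Z) (vs Y₁)
  omega

/-- the second step -/
theorem second {E Z Y Y₀ Y₁ F : Finset (α × α)} (hu : Y₀ ∪ Y₁ = Z) (h0 : Y₀ ⊆ Y) (h1 : Y₁ ⊆ F)
    (h : (bd E Z ∩ vs Y₀).card ≤ (vs Y₀ ∩ vs Y₁).card) :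
    (bd E Z ∩ vs Y).card ≤ (vs Y ∩ vs F).card := by
  have hsub : bd E Z ∩ vs Y ⊆ (bd E Z ∩ vs Y₀) ∪ ((vs Y ∩ vs F) \ (vs Y₀ ∩ vs Y₁)) := by
    intro x hx
    rw [Finset.mem_inter] at hx
    by_cases h2 : x ∈ vs Y₀
    · exact Finset.mem_union_left _ (Finset.mem_inter.2 ⟨hx.1, h2⟩)
    · refine Finset.mem_union_right _ (Finset.mem_sdiff.2 ⟨?_, ?_⟩)
      · have h3 : x ∈ vs Z := by
          have := hx.1
          unfold bd at this
          exact (Finset.mem_inter.1 this).1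
        rw [← hu, vs_union, Finset.mem_union] at h3
        exact Finset.mem_inter.2 ⟨hx.2, vs_mono h1 (h3.resolve_left h2)⟩
      · intro h3
        exact h2 (Finset.mem_inter.1 h3).1
  have h3 := Finset.card_le_card hsub
  have h4 := Finset.card_union_le (bd E Z ∩ vs Y₀) ((vs Y ∩ vs F) \ (vs Y₀ ∩ vs Y₁))
  have h5 : (vs Y₀ ∩ vs Y₁) ⊆ (vs Y ∩ vs F) :=
    Finset.inter_subset_inter (vs_mono h0) (vs_mono h1)
  have h6 := Finset.card_sdiff_add_card_eq_card h5
  omega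

end BadWLAux

open BadWLAux in
/-- **A2.** -/
theorem badWL : S_BadWL := by
  intro α _ E Z N hbad Y hYE
  obtain ⟨hZE, _, _, hb⟩ := hbad
  have hu : (Y ∩ Z) ∪ (Z \ Y) = Z := by
    ext p
    rw [Finset.mem_union, Finset.mem_inter, Finset.mem_sdiff]
    tauto
  have hu' : (Z \ Y) ∪ (Y ∩ Z) = Z := by
    rw [Finset.union_comm]
    exact hu
  have hsd : Z \ (Y ∩ Z) = Z \ Y := by
    ext p
    simp only [Finset.mem_sdiff, Finset.mem_inter]
    tauto
  have h0 : Y ∩ Z ⊆ Y := Finset.inter_subset_left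
  have h1 : Z \ Y ⊆ E \ Y := Finset.sdiff_subset_sdiff hZE (Finset.Subset.refl _)
  have hb' := hb (Y ∩ Z) Finset.inter_subset_right
  rw [hsd] at hb'
  rcases hb' with h | h
  · -- the boundary of the first part is large
    have h2 := part hu h
    rw [Finset.inter_comm (vs (Y ∩ Z)) (vs (Z \ Y))] at h2
    have h3 := second (E := E) (Y := E \ Y) (F := Y) hu' h1 h0 h2
    rw [Finset.inter_comm (vs (E \ Y)) (vs Y)] at h3
    exact (min_le_right _ _).trans h3
  · have h2 := part hu' h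
    rw [Finset.inter_comm (vs (Z \ Y)) (vs (Y ∩ Z))] at h2
    have h3 := second (E := E) (Y := Y) (F := E \ Y) hu h0 h1 h2
    exact (min_le_left _ _).trans h3

end Pool.Agent.MPd439b2.VX
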