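import Pool.Agent.Lib.MP_d439b2_co.VX.Spec

/-!
# MP_d439b2_co, VX, A8: cleaned regions
-/

set_option autoImplicit false

namespace Pool.Agent.MPd439b2.VX

open Pool.Agent.MPd439b2

private theorem Clean_con {α : Type} {n : ℕ} (B : BG α n) {x x' z : α} (h : B.Con x z)
    (h' : B.Con x' z) : x = x' := by
  obtain ⟨h1, h2, h3⟩ := h
  obtain ⟨h1', h2', h3'⟩ := h'
  have hc : B.c x = B.c x' := h1.trans h1'.symm
  refine B.inj x x' hc ?_
  rcases lt_trichotomy (B.ρ x) (B.ρ x') with h4 | h4 | h4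
  · have := h3 x' hc.symm h4
    omega
  · exact h4
  · have := h3' x hc h4
    omega

private theorem Clean_T {α : Type} [Fintype α] [DecidableEq α] {n : ℕ} (B : BG α n)
    (T : Finset (Fin n)) {R : Finset (α × α)} (hR : R ⊆ B.Ed T) {x : α} (hx : x ∈ vs R) :
    B.c x ∈ T := by
  obtain ⟨y, h | h⟩ := mem_vs.1 hx
  · exact (BG.mem_Ed.1 (hR h)).1
  · obtain ⟨h1, h2⟩ := BG.mem_Ed.1 (hR h)
    rcases h2 with h2 | h2
    · change y = x at h2
      rw [← h2]
      exact h1
    · exact h2.2.1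

theorem clean : S_Clean := by
  classical
  intro α _ _ n B T g M Q R h1 h2
  refine ⟨fun k => (vs (R k)).filter fun x => x ∉ bd (B.Ed T) (R k) ∨ x ∈ Q k, ?_, ?_⟩
  · intro k hk
    obtain ⟨hQ, hR, hQR, hb⟩ := h1 k hk
    refine ⟨?_, ?_, ?_⟩
    · intro x hx
      refine Finset.mem_filter.2 ⟨?_, Or.inr hx⟩
      exact mem_vs.2 ⟨x, Or.inl (hQR (x, x) (BG.mem_Ed.2 ⟨hQ x hx, Or.inl rfl⟩) hx hx)⟩
    · intro x hx
      exact Clean_T B T hR (Finset.mem_filter.1 hx).1
    · have hS2 : ((Finset.univ : Finset α).filter fun x => ∃ z ∈ bd (B.Ed T) (R k),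
          B.Con x z).card ≤ (bd (B.Ed T) (R k)).card := by
        rcases ((Finset.univ : Finset α).filter fun x => ∃ z ∈ bd (B.Ed T) (R k),
          B.Con x z).eq_empty_or_nonempty with he | ⟨z0, _⟩
        · rw [he]
          simp
        have : Nonempty α := ⟨z0⟩
        have hex : ∀ x, x ∈ ((Finset.univ : Finset α).filter fun x => ∃ z ∈ bd (B.Ed T) (R k),
            B.Con x z) → ∃ z, z ∈ bd (B.Ed T) (R k) ∧ B.Con x z := by
          intro x hx
          exact (Finset.mem_filter.1 hx).2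
        choose! f hf hf2 using hex
        refine Finset.card_le_card_of_injOn f (fun x hx => hf x hx) ?_
        intro x hx y hy hxy
        have hx' := hf2 x hx
        have hy' := hf2 y hy
        rw [hxy] at hx'
        exact Clean_con B hx' hy'
      have hsub : {x | x ∈ (vs (R k)).filter (fun x => x ∉ bd (B.Ed T) (R k) ∨ x ∈ Q k) ∧
          ∃ z, B.Con x z ∧ z ∉ (vs (R k)).filter fun x => x ∉ bd (B.Ed T) (R k) ∨ x ∈ Q k} ⊆
          ((bd (B.Ed T) (R k) ∪ (Finset.univ : Finset α).filter fun x =>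
            ∃ z ∈ bd (B.Ed T) (R k), B.Con x z : Finset α) : Set α) := by
        rintro x ⟨hx, z, hz, hzP⟩
        rw [Finset.mem_coe, Finset.mem_union]
        rw [Finset.mem_filter] at hx hzP
        have hcx := Clean_T B T hR hx.1
        have hE : (x, z) ∈ B.Ed T := by
          refine BG.mem_Ed.2 ⟨hcx, Or.inr ⟨hcx, ?_, Or.inl hz⟩⟩
          rw [← hz.1]
          exact hcx
        by_cases hxz : (x, z) ∈ R k
        · right
          refine Finset.mem_filter.2 ⟨Finset.mem_univ x, z, ?_, hz⟩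
          by_contra hc
          exact hzP ⟨mem_vs.2 ⟨x, Or.inr hxz⟩, Or.inl hc⟩
        · left
          exact Finset.mem_inter.2 ⟨hx.1, mem_vs.2 ⟨z, Or.inl (Finset.mem_sdiff.2 ⟨hE, hxz⟩)⟩⟩
      refine (Set.ncard_le_ncard hsub (Finset.finite_toSet _)).trans ?_
      rw [Set.ncard_coe_finset]
      refine (Finset.card_union_le _ _).trans ?_
      omega
  · intro k hk l hl hkl
    rw [Finset.disjoint_left]
    intro x hxk hxl
    rw [Finset.mem_filter] at hxk hxl
    obtain ⟨hdQ, hdR⟩ := h2 k hk l hl hkl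
    have key : ∀ k l, R l ⊆ B.Ed T → Disjoint (R k) (R l) → x ∈ vs (R k) → x ∈ vs (R l) →
        x ∈ bd (B.Ed T) (R k) := by
      intro k l hRl hd hk1 hl1
      refine Finset.mem_inter.2 ⟨hk1, ?_⟩
      obtain ⟨y, h | h⟩ := mem_vs.1 hl1
      · exact mem_vs.2 ⟨y, Or.inl (Finset.mem_sdiff.2 ⟨hRl h, Finset.disjoint_right.1 hd h⟩)⟩
      · exact mem_vs.2 ⟨y, Or.inr (Finset.mem_sdiff.2 ⟨hRl h, Finset.disjoint_right.1 hd h⟩)⟩
    have a1 := key k l (h1 l hl).2.1 hdR hxk.1 hxl.1
    have a2 := key l k (h1 k hk).2.1 hdR.symm hxl.1 hxk.1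
    have b1 : x ∈ Q k := by
      rcases hxk.2 with h | h
      · exact absurd a1 h
      · exact h
    have b2 : x ∈ Q l := by
      rcases hxl.2 with h | h
      · exact absurd a2 h
      · exact h
    exact Finset.disjoint_left.1 hdQ b1 b2

end Pool.Agent.MPd439b2.VX
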