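import Pool.Agent.Lib.MP_d439b2_co.VX.Spec

/-!
# MP_d439b2_co, VX, A6: few disjoint connected sets cross a small boundary
-/

set_option autoImplicit false

namespace Pool.Agent.MPd439b2.VX

open Pool.Agent.MPd439b2

theorem cross : S_Cross := by
  classical
  intro α _ _ n B T F I Q hF hconn hdis hne
  have hex : ∀ i ∈ I, ∃ x, x ∈ Q i ∧ x ∈ bd (B.Ed T) F := by
    intro i hi
    by_contra hno
    push Not at hno
    obtain ⟨hC, hT⟩ := hconn i hi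
    obtain ⟨⟨p, hpF, hp1, hp2⟩, q, hqE, hqF, hq1, hq2⟩ := hne i hi
    have loop : ∀ x ∈ Q i, (x, x) ∈ B.Ed T := fun x hx => BG.mem_Ed.2 ⟨hT x hx, Or.inl rfl⟩
    -- a node of `Q i` is not in both
    have hno' : ∀ x ∈ Q i, x ∈ vs F → x ∈ vs (B.Ed T \ F) → False := fun x hx h1 h2 =>
      hno x hx (Finset.mem_inter.2 ⟨h1, h2⟩)
    have inF : ∀ x ∈ Q i, x ∈ vs F → ∀ y, ((x, y) ∈ B.Ed T → (x, y) ∈ F) ∧
        ((y, x) ∈ B.Ed T → (y, x) ∈ F) := by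
      intro x hx h1 y
      refine ⟨fun h => ?_, fun h => ?_⟩
      · by_contra hc
        exact hno' x hx h1 (mem_vs.2 ⟨y, Or.inl (Finset.mem_sdiff.2 ⟨h, hc⟩)⟩)
      · by_contra hc
        exact hno' x hx h1 (mem_vs.2 ⟨y, Or.inr (Finset.mem_sdiff.2 ⟨h, hc⟩)⟩)
    obtain ⟨x, hx, y, hy, hxy⟩ := hC.2 {z | z ∈ Q i ∧ z ∈ vs F} (fun z hz => hz.1)
      ⟨p.1, hp1, mem_vs.2 ⟨p.2, Or.inl hpF⟩⟩ (fun h => by
        have h2 : q.1 ∈ ({z | z ∈ Q i ∧ z ∈ vs F} : Set α) := by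
          rw [h]
          exact hq1
        exact hqF ((inF q.1 hq1 h2.2 q.2).1 hqE))
    have h3 : (x, y) ∈ B.Ed T := BG.mem_Ed.2 ⟨hT x hx.1, Or.inr hxy⟩
    have h4 := (inF x hx.1 hx.2 y).1 h3
    exact hy.2 ⟨hy.1, mem_vs.2 ⟨x, Or.inr h4⟩⟩
  rcases I.eq_empty_or_nonempty with rfl | ⟨i0, hi0⟩
  · simp
  obtain ⟨z0, _⟩ := hex i0 hi0
  have : Nonempty α := ⟨z0⟩
  choose! x hx hxB using hex
  refine Finset.card_le_card_of_injOn x (fun i hi => hxB i hi) ?_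
  intro i hi j hj hij
  by_contra hne
  have h1 := Finset.disjoint_left.1 (hdis i hi j hj hne) (hx i hi)
  rw [hij] at h1
  exact h1 (hx j hj)

end Pool.Agent.MPd439b2.VX
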