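import Pool.Agent.Lib.MP_d439b2_co.VX.Spec

/-!
# MP_d439b2_co, VX, A4: disjoint paths from a part of a chain to the rest (Menger)
-/

set_option autoImplicit false

namespace Pool.Agent.MPd439b2.VX

open Pool.Agent.MPd439b2

theorem link (h : GT.SMen) : S_Link := by
  intro α _ _ n B T i S J M hiT hS hWL hJ hJ'
  refine h α (B.Gm T) _ _ M fun L X hcut => ?_
  set E := B.Ed T with hE
  set Y := E.filter (fun p => p.1 ∈ L ∨ p.2 ∈ L) with hY
  have hYE : Y ⊆ E := Finset.filter_subset _ _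
  have hloop : ∀ x, B.c x = i → (x, x) ∈ E := fun x hx =>
    BG.mem_Ed.2 ⟨by rw [hx]; exact hiT, Or.inl rfl⟩
  -- the boundary is in X
  have h1 : vs Y ∩ vs (E \ Y) ⊆ X ∩ vs Y := by
    intro x hx
    rw [Finset.mem_inter] at hx
    have hxY := hx.1
    rw [mem_vs, mem_vs] at hx
    have hxL : x ∉ L := by
      obtain ⟨y, hy | hy⟩ := hx.2
      · intro hxL
        exact (Finset.mem_sdiff.1 hy).2 (Finset.mem_filter.2
          ⟨(Finset.mem_sdiff.1 hy).1, Or.inl hxL⟩)
      · intro hxL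
        exact (Finset.mem_sdiff.1 hy).2 (Finset.mem_filter.2
          ⟨(Finset.mem_sdiff.1 hy).1, Or.inr hxL⟩)
    have key : ∀ y, y ∈ L → (x = y ∨ (B.Gm T).Adj y x) → x ∈ X := by
      intro y hy h2
      rcases h2 with h2 | h2
      · rw [← h2] at hy
        exact absurd hy hxL
      · rcases Finset.mem_union.1 (hcut.far y hy x h2) with h3 | h3
        · exact absurd h3 hxL
        · exact h3
    refine Finset.mem_inter.2 ⟨?_, hxY⟩
    obtain ⟨y, hy | hy⟩ := hx.1
    · have h2 := Finset.mem_filter.1 hy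
      have h3 := (BG.mem_Ed.1 h2.1).2
      refine key y (h2.2.resolve_left hxL) ?_
      exact h3.imp id fun h => h.symm
    · have h2 := Finset.mem_filter.1 hy
      have h3 := (BG.mem_Ed.1 h2.1).2
      refine key y (h2.2.resolve_right hxL) ?_
      exact h3.imp (fun h => h.symm) id
  have h2 : S \ J ⊆ S ∩ vs (E \ Y) := by
    intro x hx
    rw [Finset.mem_sdiff] at hx
    refine Finset.mem_inter.2 ⟨hx.1, ?_⟩
    have hxL : x ∉ L := by
      refine Finset.disjoint_left.1 hcut.last ?_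
      exact Finset.mem_filter.2 ⟨Finset.mem_univ _, hS x hx.1, hx.2⟩
    refine mem_vs.2 ⟨x, Or.inl (Finset.mem_sdiff.2 ⟨hloop x (hS x hx.1), fun h3 => ?_⟩)⟩
    rcases (Finset.mem_filter.1 h3).2 with h4 | h4
    · exact hxL h4
    · exact hxL h4
  have h3 : S ∩ J ⊆ (S ∩ vs Y) ∪ (X \ vs Y) := by
    intro x hx
    rw [Finset.mem_inter] at hx
    rw [Finset.mem_union, Finset.mem_inter, Finset.mem_sdiff]
    by_cases hxY : x ∈ vs Y
    · exact Or.inl ⟨hx.1, hxY⟩
    · have h4 : x ∈ L ∪ X := hcut.head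
        (Finset.mem_filter.2 ⟨Finset.mem_univ _, hS x hx.1, hx.2⟩)
      rcases Finset.mem_union.1 h4 with h5 | h5
      · refine absurd (mem_vs.2 ⟨x, Or.inl ?_⟩) hxY
        exact Finset.mem_filter.2 ⟨hloop x (hS x hx.1), Or.inl h5⟩
      · exact Or.inr ⟨h5, hxY⟩
  have c1 := Finset.card_le_card h1
  have c2 := Finset.card_le_card h2
  have c3 := (Finset.card_le_card h3).trans (Finset.card_union_le _ _)
  have c4 := hWL Y hYE
  have c5 : (X ∩ vs Y).card + (X \ vs Y).card = X.card := Finset.card_inter_add_card_sdiff X (vs Y)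
  rcases min_le_iff.1 c4 with c6 | c6 <;> omega

end Pool.Agent.MPd439b2.VX
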