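import Pool.Agent.Lib.MP_d439b2_co.VX.Spec

/-!
# MP_d439b2_co, VX, A7: disjoint regions (adapted from W/Reg.lean of helper86)
-/

set_option autoImplicit false
set_option linter.unusedSectionVars false

namespace Pool.Agent.MPd439b2.VX

open Pool.Agent.MPd439b2

namespace RegAux

section

variable {α : Type} [DecidableEq α]

theorem bd_sdiff (E A B : Finset (α × α)) (hA : A ⊆ E) :
    (bd E (A \ B)).card ≤ (bd E A).card + (bd E B).card := by
  refine (Finset.card_le_card ?_).trans (Finset.card_union_le _ _)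
  intro x hx
  unfold bd at *
  rw [Finset.mem_inter] at hx
  rw [Finset.mem_union, Finset.mem_inter, Finset.mem_inter]
  obtain ⟨h1, h2⟩ := hx
  have h3 : x ∈ vs A := vs_mono Finset.sdiff_subset h1
  have h4 : x ∈ vs (E \ B) := by
    refine vs_mono ?_ h1
    intro p hp
    rw [Finset.mem_sdiff] at *
    exact ⟨hA hp.1, hp.2⟩
  have h5 : E \ (A \ B) ⊆ (E \ A) ∪ B := by
    intro p hp
    rw [Finset.mem_sdiff, Finset.mem_sdiff] at hp
    rw [Finset.mem_union, Finset.mem_sdiff]
    by_cases h : p ∈ A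
    · exact Or.inr (by_contra fun h' => hp.2 ⟨h, h'⟩)
    · exact Or.inl ⟨hp.1, h⟩
  have h6 := vs_mono h5 h2
  rw [vs_union, Finset.mem_union] at h6
  rcases h6 with h6 | h6
  · exact Or.inl ⟨h3, h6⟩
  · exact Or.inr ⟨h6, h4⟩

theorem carv_sub {E : Finset (α × α)} {N : ℕ} {A : Finset (α × α)} (h : Carv E N A) : A ⊆ E := by
  induction h with
  | empty => exact Finset.empty_subset _
  | single e he => exact Finset.singleton_subset_iff.2 he
  | union _ _ _ _ ih ih' => exact Finset.union_subset ih ih'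

theorem carv_bd {E : Finset (α × α)} {N : ℕ} (hN : 2 ≤ N) {A : Finset (α × α)} (h : Carv E N A) :
    (bd E A).card ≤ N := by
  cases h with
  | empty => simp [bd, vs_empty]
  | single e he =>
    refine (Finset.card_le_card Finset.inter_subset_left).trans ((card_vs_single e).trans hN)
  | union _ _ _ hw => exact hw

/-- the properties of the sets `Q i` -/
structure Hyp (E : Finset (α × α)) (M' : ℕ) (Q : ℕ → Finset (α × α)) : Prop where
  ne : ∀ i < M', (Q i).Nonempty
  dis : ∀ i < M', ∀ j < M', i ≠ j → Disjoint (Q i) (Q j)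
  cr : ∀ F ⊆ E, ∀ I : Finset ℕ, (∀ i ∈ I, i < M') →
    (∀ i ∈ I, (Q i ∩ F).Nonempty ∧ (Q i \ F).Nonempty) → I.card ≤ (bd E F).card

/-- the number of the sets `Q i` in `A` -/
def nu (Q : ℕ → Finset (α × α)) (M' : ℕ) (A : Finset (α × α)) : ℕ :=
  ((Finset.range M').filter (fun i => Q i ⊆ A)).card

theorem nu_eq_zero {Q : ℕ → Finset (α × α)} {M' : ℕ} {A : Finset (α × α)} (h : ∀ i < M', ¬ Q i ⊆ A) :
    nu Q M' A = 0 := by
  unfold nu
  rw [Finset.card_eq_zero, Finset.filter_eq_empty_iff]
  intro i hi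
  exact h i (Finset.mem_range.1 hi)

/-- the invariant -/
structure Inv (E : Finset (α × α)) (g M' : ℕ) (Q : ℕ → Finset (α × α)) (A B : Finset (α × α)) (ν : ℕ)
    (J : Finset ℕ) (R : ℕ → Finset (α × α)) : Prop where
  sub : B ⊆ A
  bdB : (VX.bd E B).card ≤ g
  no : ∀ i < M', ¬ Q i ⊆ A \ B
  lt : ∀ i ∈ J, i < M'
  sR : ∀ i ∈ J, Q i ⊆ R i
  sB : ∀ i ∈ J, R i ⊆ B
  reg : ∀ i ∈ J, (bd E (R i)).card ≤ 2 * g
  dis : ∀ i ∈ J, ∀ j ∈ J, i ≠ j → Disjoint (R i) (R j)
  nu : (ν = 0 ∧ B = ∅ ∧ J = ∅) ∨ (1 ≤ ν ∧ ν + 1 ≤ 2 * J.card ∧ nu Q M' B + g ≤ 2 * g * ν)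

variable {E : Finset (α × α)} {g M' : ℕ} {Q : ℕ → Finset (α × α)}

/-- the empty invariant -/
theorem Inv.zero {A : Finset (α × α)} (h : ∀ i < M', ¬ Q i ⊆ A) :
    Inv E g M' Q A ∅ 0 ∅ (fun _ => ∅) where
  sub := Finset.empty_subset _
  bdB := by simp [VX.bd, vs_empty]
  no := by simpa using h
  lt := by simp
  sR := by simp
  sB := by simp
  reg := by simp
  dis := by simp
  nu := Or.inl ⟨rfl, rfl, rfl⟩

theorem cross_le (hq : Hyp E M' Q) {B : Finset (α × α)} (hB : B ⊆ E)
    (P : ℕ → Prop) [DecidablePred P]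
    (h : ∀ i < M', P i → (Q i ∩ B).Nonempty ∧ (Q i \ B).Nonempty) :
    ((Finset.range M').filter P).card ≤ (bd E B).card := by
  apply hq.cr B hB
  · intro i hi
    exact Finset.mem_range.1 (Finset.mem_filter.1 hi).1
  · intro i hi
    exact h i (Finset.mem_range.1 (Finset.mem_filter.1 hi).1) (Finset.mem_filter.1 hi).2

/-- the consequence of the invariant -/
theorem Inv.le (hq : Hyp E M' Q)
    {A B : Finset (α × α)} {ν : ℕ} {J : Finset ℕ} {R : ℕ → Finset (α × α)}
    (h : Inv E g M' Q A B ν J R) (hAE : A ⊆ E) : RegAux.nu Q M' A ≤ 2 * g * ν := by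
  rcases h.nu with ⟨h1, h2, h3⟩ | ⟨h1, h2, h3⟩
  · rw [nu_eq_zero]
    · exact Nat.zero_le _
    · have := h.no
      rw [h2] at this
      simpa using this
  · have h4 : RegAux.nu Q M' A ≤ RegAux.nu Q M' B +
        ((Finset.range M').filter (fun i => Q i ⊆ A ∧ ¬ Q i ⊆ B)).card := by
      unfold RegAux.nu
      refine (Finset.card_le_card ?_).trans (Finset.card_union_le _ _)
      intro i hi
      rw [Finset.mem_filter] at hi
      rw [Finset.mem_union, Finset.mem_filter, Finset.mem_filter]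
      by_cases h5 : Q i ⊆ B
      · exact Or.inl ⟨hi.1, h5⟩
      · exact Or.inr ⟨hi.1, hi.2, h5⟩
    have h5 : ((Finset.range M').filter (fun i => Q i ⊆ A ∧ ¬ Q i ⊆ B)).card ≤
        (bd E B).card := by
      apply cross_le hq (h.sub.trans hAE)
      intro i hi hP
      constructor
      · by_contra hne
        apply h.no i hi
        intro x hx
        refine Finset.mem_sdiff.2 ⟨hP.1 hx, fun hxB => hne ⟨x, Finset.mem_inter.2 ⟨hx, hxB⟩⟩⟩
      · obtain ⟨x, hx, hxB⟩ := Finset.not_subset.1 hP.2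
        exact ⟨x, Finset.mem_sdiff.2 ⟨hx, hxB⟩⟩
    have h6 := h.bdB
    omega

/-- one active part -/
theorem step_one (hq : Hyp E M' Q)
    {A A₁ B₁ : Finset (α × α)} {ν₁ : ℕ} {J₁ : Finset ℕ} {R₁ : ℕ → Finset (α × α)}
    (h : Inv E g M' Q A₁ B₁ ν₁ J₁ R₁) (hsub : A₁ ⊆ A) (hAE : A ⊆ E) (h1 : 1 ≤ ν₁)
    (hbd : (bd E A).card ≤ g)
    (hnu : RegAux.nu Q M' A + g ≤ 2 * g * (ν₁ + 1)) :
    ∃ B ν J R, Inv E g M' Q A B ν J R := by
  obtain ⟨h2, h3⟩ : ν₁ + 1 ≤ 2 * J₁.card ∧ RegAux.nu Q M' B₁ + g ≤ 2 * g * ν₁ := by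
    rcases h.nu with h2 | h2
    · omega
    · exact h2.2
  by_cases hex : ∃ i < M', Q i ⊆ A \ B₁
  · obtain ⟨i, hi, hiQ⟩ := hex
    have hne : (Q i).Nonempty := hq.ne i hi
    have hiJ : i ∉ J₁ := by
      intro hiJ
      obtain ⟨x, hx⟩ := hne
      exact (Finset.mem_sdiff.1 (hiQ hx)).2 (h.sB i hiJ (h.sR i hiJ hx))
    have hR : ∀ j ∈ J₁, Function.update R₁ i (A \ B₁) j = R₁ j := by
      intro j hj
      have hji : j ≠ i := by
        intro he
        rw [he] at hj
        exact hiJ hj
      exact Function.update_of_ne hji _ _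
    refine ⟨A, ν₁ + 1, insert i J₁, Function.update R₁ i (A \ B₁), ?_⟩
    constructor
    · exact Finset.Subset.refl _
    · exact hbd
    · intro j hj hsub
      obtain ⟨x, hx⟩ := hq.ne j hj
      have := hsub hx
      rw [sdiff_self] at this
      exact Finset.notMem_empty x this
    · intro j hj
      rcases Finset.mem_insert.1 hj with rfl | hj
      · exact hi
      · exact h.lt j hj
    · intro j hj
      rcases Finset.mem_insert.1 hj with rfl | hj
      · rw [Function.update_self]
        exact hiQ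
      · rw [hR j hj]
        exact h.sR j hj
    · intro j hj
      rcases Finset.mem_insert.1 hj with rfl | hj
      · rw [Function.update_self]
        exact Finset.sdiff_subset
      · rw [hR j hj]
        exact (h.sB j hj).trans (h.sub.trans hsub)
    · intro j hj
      rcases Finset.mem_insert.1 hj with rfl | hj
      · rw [Function.update_self]
        have := bd_sdiff E A B₁ hAE
        have := h.bdB
        omega
      · rw [hR j hj]
        exact h.reg j hj
    · have hd : ∀ j ∈ J₁, Disjoint (A \ B₁) (R₁ j) := by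
        intro j hj
        rw [Finset.disjoint_left]
        intro x hx hx'
        exact (Finset.mem_sdiff.1 hx).2 (h.sB j hj hx')
      intro j hj k hk hjk
      rcases Finset.mem_insert.1 hj with hj' | hj'
      · rcases Finset.mem_insert.1 hk with hk' | hk'
        · exact absurd (hj'.trans hk'.symm) hjk
        · rw [hj', Function.update_self, hR k hk']
          exact hd k hk'
      · rcases Finset.mem_insert.1 hk with hk' | hk'
        · rw [hk', Function.update_self, hR j hj']
          exact (hd j hj').symm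
        · rw [hR j hj', hR k hk']
          exact h.dis j hj' k hk' hjk
    · right
      rw [Finset.card_insert_of_notMem hiJ]
      refine ⟨by omega, by omega, hnu⟩
  · push Not at hex
    exact ⟨B₁, ν₁, J₁, R₁, h.sub.trans hsub, h.bdB, hex, h.lt, h.sR, h.sB, h.reg, h.dis,
      Or.inr ⟨h1, h2, h3⟩⟩

theorem exists_inv (hq : Hyp E M' Q) (hg : 2 ≤ g) {A : Finset (α × α)}
    (hA : Carv E g A) : ∃ B ν J R, Inv E g M' Q A B ν J R := by
  have hne : ∀ i < M', (Q i).Nonempty := hq.ne
  have nosd : ∀ A : Finset (α × α), ∀ i < M', ¬ Q i ⊆ A \ A := by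
    intro A i hi hsub
    obtain ⟨x, hx⟩ := hne i hi
    have := hsub hx
    rw [sdiff_self] at this
    exact Finset.notMem_empty x this
  -- one new set
  have hone : ∀ A : Finset (α × α), (bd E A).card ≤ g → nu Q M' A ≤ g →
      ∃ B ν J R, Inv E g M' Q A B ν J R := by
    intro A hbd hnu
    by_cases hex : ∃ i < M', Q i ⊆ A
    · obtain ⟨i, hi, hiA⟩ := hex
      refine ⟨A, 1, {i}, fun _ => A, Finset.Subset.refl _, hbd, nosd A, ?_, ?_, ?_, ?_, ?_, ?_⟩
      · intro j hj
        rw [Finset.mem_singleton.1 hj]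
        exact hi
      · intro j hj
        rw [Finset.mem_singleton.1 hj]
        exact hiA
      · intro j _
        exact Finset.Subset.refl _
      · intro j _
        omega
      · intro j hj k hk hjk
        exact absurd ((Finset.mem_singleton.1 hj).trans (Finset.mem_singleton.1 hk).symm) hjk
      · right
        rw [Finset.card_singleton]
        refine ⟨le_rfl, by omega, by omega⟩
    · push Not at hex
      exact ⟨∅, 0, ∅, fun _ => ∅, Inv.zero hex⟩
  induction hA with
  | empty =>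
    refine ⟨∅, 0, ∅, fun _ => ∅, Inv.zero ?_⟩
    intro i hi hsub
    obtain ⟨x, hx⟩ := hne i hi
    exact Finset.notMem_empty x (hsub hx)
  | single x hx =>
    apply hone {x} (carv_bd hg (Carv.single x hx))
    refine le_trans ?_ (show 1 ≤ g by omega)
    unfold nu
    rw [Finset.card_le_one]
    intro i hi j hj
    rw [Finset.mem_filter, Finset.mem_range] at hi hj
    by_contra hij
    have h1 := hq.dis i hi.1 j hj.1 hij
    have h2 : ∀ k < M', Q k ⊆ {x} → x ∈ Q k := by
      intro k hk hsub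
      obtain ⟨y, hy⟩ := hne k hk
      have := Finset.mem_singleton.1 (hsub hy)
      rwa [← this]
    exact Finset.disjoint_left.1 h1 (h2 i hi.1 hi.2) (h2 j hj.1 hj.2)
  | @union A₁ A₂ hA₁ hA₂ hd hw ih₁ ih₂ =>
    obtain ⟨B₁, ν₁, J₁, R₁, h₁⟩ := ih₁
    obtain ⟨B₂, ν₂, J₂, R₂, h₂⟩ := ih₂
    have hE₁ := carv_sub hA₁
    have hE₂ := carv_sub hA₂
    have hE := Finset.union_subset hE₁ hE₂
    have hle₁ := h₁.le hq hE₁
    have hle₂ := h₂.le hq hE₂
    have hbd₁ := carv_bd hg hA₁
    have hm : nu Q M' (A₁ ∪ A₂) ≤ nu Q M' A₁ + nu Q M' A₂ +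
        ((Finset.range M').filter (fun i => Q i ⊆ A₁ ∪ A₂ ∧ ¬ Q i ⊆ A₁ ∧ ¬ Q i ⊆ A₂)).card := by
      unfold nu
      refine (Finset.card_le_card ?_).trans ((Finset.card_union_le _ _).trans
        (Nat.add_le_add_right (Finset.card_union_le _ _) _))
      intro i hi
      rw [Finset.mem_filter] at hi
      rw [Finset.mem_union, Finset.mem_union, Finset.mem_filter, Finset.mem_filter,
        Finset.mem_filter]
      by_cases h5 : Q i ⊆ A₁
      · exact Or.inl (Or.inl ⟨hi.1, h5⟩)
      · by_cases h6 : Q i ⊆ A₂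
        · exact Or.inl (Or.inr ⟨hi.1, h6⟩)
        · exact Or.inr ⟨hi.1, hi.2, h5, h6⟩
    have hqq : ((Finset.range M').filter
        (fun i => Q i ⊆ A₁ ∪ A₂ ∧ ¬ Q i ⊆ A₁ ∧ ¬ Q i ⊆ A₂)).card ≤ (bd E A₁).card := by
      apply cross_le hq hE₁
      intro i hi hP
      constructor
      · obtain ⟨x, hx, hxA⟩ := Finset.not_subset.1 hP.2.2
        rcases Finset.mem_union.1 (hP.1 hx) with h | h
        · exact ⟨x, Finset.mem_inter.2 ⟨hx, h⟩⟩
        · exact absurd h hxA
      · obtain ⟨x, hx, hxA⟩ := Finset.not_subset.1 hP.2.1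
        exact ⟨x, Finset.mem_sdiff.2 ⟨hx, hxA⟩⟩
    rcases h₁.nu with ⟨e1, e2, e3⟩ | ⟨e1, e2, e3⟩
    · rcases h₂.nu with ⟨f1, f2, f3⟩ | ⟨f1, f2, f3⟩
      · -- both are inactive
        apply hone _ hw
        rw [e1, mul_zero] at hle₁
        rw [f1, mul_zero] at hle₂
        omega
      · apply step_one hq h₂ Finset.subset_union_right hE f1 hw
        rw [e1, mul_zero] at hle₁
        rw [mul_add, mul_one]
        omega
    · rcases h₂.nu with ⟨f1, f2, f3⟩ | ⟨f1, f2, f3⟩
      · apply step_one hq h₁ Finset.subset_union_left hE e1 hw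
        rw [f1, mul_zero] at hle₂
        rw [mul_add, mul_one]
        omega
      · -- both are active
        have hJ : Disjoint J₁ J₂ := by
          rw [Finset.disjoint_left]
          intro i hi hi'
          obtain ⟨x, hx⟩ := hne i (h₁.lt i hi)
          exact Finset.disjoint_left.1 hd (h₁.sub (h₁.sB i hi (h₁.sR i hi hx)))
            (h₂.sub (h₂.sB i hi' (h₂.sR i hi' hx)))
        have hR₁ : ∀ i ∈ J₁, (if i ∈ J₁ then R₁ i else R₂ i) = R₁ i := fun i hi => if_pos hi
        have hR₂ : ∀ i ∈ J₂, (if i ∈ J₁ then R₁ i else R₂ i) = R₂ i := fun i hi =>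
          if_neg (fun h => Finset.disjoint_left.1 hJ h hi)
        refine ⟨A₁ ∪ A₂, ν₁ + ν₂ + 1, J₁ ∪ J₂, fun i => if i ∈ J₁ then R₁ i else R₂ i,
          Finset.Subset.refl _, hw, nosd _, ?_, ?_, ?_, ?_, ?_, ?_⟩
        · intro i hi
          rcases Finset.mem_union.1 hi with hi | hi
          · exact h₁.lt i hi
          · exact h₂.lt i hi
        · intro i hi
          rcases Finset.mem_union.1 hi with hi | hi
          · rw [hR₁ i hi]
            exact h₁.sR i hi
          · rw [hR₂ i hi]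
            exact h₂.sR i hi
        · intro i hi
          rcases Finset.mem_union.1 hi with hi | hi
          · rw [hR₁ i hi]
            exact (h₁.sB i hi).trans (h₁.sub.trans Finset.subset_union_left)
          · rw [hR₂ i hi]
            exact (h₂.sB i hi).trans (h₂.sub.trans Finset.subset_union_right)
        · intro i hi
          rcases Finset.mem_union.1 hi with hi | hi
          · rw [hR₁ i hi]
            exact h₁.reg i hi
          · rw [hR₂ i hi]
            exact h₂.reg i hi
        · have hx : ∀ i ∈ J₁, ∀ j ∈ J₂, Disjoint (R₁ i) (R₂ j) := by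
            intro i hi j hj
            exact Finset.disjoint_of_subset_left ((h₁.sB i hi).trans h₁.sub)
              (Finset.disjoint_of_subset_right ((h₂.sB j hj).trans h₂.sub) hd)
          intro i hi j hj hij
          rcases Finset.mem_union.1 hi with hi | hi
          · rcases Finset.mem_union.1 hj with hj | hj
            · rw [hR₁ i hi, hR₁ j hj]
              exact h₁.dis i hi j hj hij
            · rw [hR₁ i hi, hR₂ j hj]
              exact hx i hi j hj
          · rcases Finset.mem_union.1 hj with hj | hj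
            · rw [hR₂ i hi, hR₁ j hj]
              exact (hx j hj i hi).symm
            · rw [hR₂ i hi, hR₂ j hj]
              exact h₂.dis i hi j hj hij
        · right
          rw [Finset.card_union_of_disjoint hJ]
          refine ⟨by omega, by omega, ?_⟩
          rw [mul_add, mul_add, mul_one]
          omega

end

end RegAux

open RegAux in
theorem reg (hcross : S_Cross) : S_Reg := by
  classical
  intro α _ _ n B T g M M' Q hg hcarv hconn hdis hM
  let P : ℕ → Finset (α × α) := fun i => (B.Ed T).filter fun p => p.1 ∈ Q i ∧ p.2 ∈ Q i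
  have hP : ∀ i p, p ∈ P i ↔ p ∈ B.Ed T ∧ p.1 ∈ Q i ∧ p.2 ∈ Q i := fun i p => Finset.mem_filter
  have hq : Hyp (B.Ed T) M' P := by
    refine ⟨fun i hi => ?_, fun i hi j hj hij => ?_, fun F hF I hI h => ?_⟩
    · obtain ⟨x, hx⟩ := (hconn i hi).1.1
      have hx' := Finset.mem_coe.1 hx
      exact ⟨(x, x), (hP i _).2 ⟨BG.mem_Ed.2 ⟨(hconn i hi).2 x hx', Or.inl rfl⟩, hx', hx'⟩⟩
    · rw [Finset.disjoint_left]
      intro p hp hp'
      exact Finset.disjoint_left.1 (hdis i hi j hj hij) ((hP i p).1 hp).2.1 ((hP j p).1 hp').2.1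
    · refine hcross α n B T F I Q hF (fun i hi => hconn i (hI i hi))
        (fun i hi j hj hij => hdis i (hI i hi) j (hI j hj) hij) (fun i hi => ?_)
      obtain ⟨⟨p, hp⟩, ⟨p', hp'⟩⟩ := h i hi
      rw [Finset.mem_inter] at hp
      rw [Finset.mem_sdiff] at hp'
      have h1 := (hP i p).1 hp.1
      have h2 := (hP i p').1 hp'.1
      exact ⟨⟨p, hp.2, h1.2⟩, p', h2.1, hp'.2, h2.2⟩
  obtain ⟨C, ν, J, R, h⟩ := exists_inv hq hg hcarv
  have hle := h.le hq (Finset.Subset.refl _)
  have hnu : nu P M' (B.Ed T) = M' := by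
    unfold nu
    rw [Finset.filter_true_of_mem (fun i _ => Finset.filter_subset _ _), Finset.card_range]
  rw [hnu] at hle
  by_cases hM0 : M = 0
  · subst hM0
    exact ⟨fun _ => 0, fun _ => ∅, fun k hk => absurd hk (Nat.not_lt_zero k),
      fun k hk => absurd hk (Nat.not_lt_zero k)⟩
  · have h1 : 4 * g * M ≤ 2 * g * ν := hM.trans hle
    have h2 : 2 * M ≤ ν := by
      have h3 : 2 * g * (2 * M) ≤ 2 * g * ν := by
        calc 2 * g * (2 * M) = 4 * g * M := by ring
          _ ≤ _ := h1
      exact Nat.le_of_mul_le_mul_left h3 (by omega)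
    have h3 : M ≤ J.card := by
      rcases h.nu with ⟨e1, -, -⟩ | ⟨e1, e2, -⟩
      · omega
      · omega
    let j : ℕ → ℕ := fun k => if hk : k < J.card then J.orderEmbOfFin rfl ⟨k, hk⟩ else 0
    have hj : ∀ k (hk : k < J.card), j k = J.orderEmbOfFin rfl ⟨k, hk⟩ := fun k hk => dif_pos hk
    have hjJ : ∀ k < J.card, j k ∈ J := by
      intro k hk
      rw [hj k hk]
      exact Finset.orderEmbOfFin_mem J rfl _
    refine ⟨j, fun k => R (j k), ?_, ?_⟩
    · intro k hk
      have hk' := hjJ k (lt_of_lt_of_le hk h3)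
      exact ⟨h.lt _ hk', (h.sB _ hk').trans h.sub,
        fun p hp h4 h5 => h.sR _ hk' ((hP _ p).2 ⟨hp, h4, h5⟩), h.reg _ hk'⟩
    · intro k hk l hl hkl
      have hk' := lt_of_lt_of_le hk h3
      have hl' := lt_of_lt_of_le hl h3
      have hne : j k ≠ j l := by
        rw [hj k hk', hj l hl']
        intro he
        have := (J.orderEmbOfFin rfl).injective he
        exact hkl (congrArg Fin.val this)
      exact ⟨hne, h.dis _ (hjJ k hk') _ (hjJ l hl') hne⟩

end Pool.Agent.MPd439b2.VX
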