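import Pool.Agent.Lib.MP_d439b2_co.VX.Spec

set_option autoImplicit false

namespace Pool.Agent.MPd439b2.VX

open Pool.Agent.MPd439b2

section

variable {α : Type} {n : ℕ} {B : BG α n}

private theorem run_refl {P : Finset α} {x : α} (hP : x ∈ P) : B.Run P x x := by
  refine ⟨hP, hP, rfl, fun z hz h => ?_⟩
  have : z = x := by
    apply B.inj _ _ hz
    rcases h with h | h
    · exact le_antisymm h.2 h.1
    · exact le_antisymm h.2 h.1
  rw [this]
  exact hP

private theorem run_symm {P : Finset α} {x y : α} (h : B.Run P x y) : B.Run P y x := by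
  obtain ⟨h2, h4, h5, h6⟩ := h
  exact ⟨h4, h2, h5.symm, fun z hc hh => h6 z (hc.trans h5.symm) hh.symm⟩

private theorem run_trans {P : Finset α} {x y z : α} (h : B.Run P x y) (h' : B.Run P y z) :
    B.Run P x z := by
  obtain ⟨h2, h4, h5, h6⟩ := h
  obtain ⟨_, k4, k5, k6⟩ := h'
  refine ⟨h2, k4, h5.trans k5, fun t hct hh => ?_⟩
  have hty : B.c t = B.c y := hct.trans h5
  rcases le_total (B.ρ t) (B.ρ y) with hle | hle
  · rcases hh with hh | hh
    · exact h6 t hct (Or.inl ⟨hh.1, hle⟩)
    · exact k6 t hty (Or.inr ⟨hh.1, hle⟩)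
  · rcases hh with hh | hh
    · exact k6 t hty (Or.inl ⟨hle, hh.2⟩)
    · exact h6 t hct (Or.inr ⟨hle, hh.2⟩)

private theorem run_cons {P : Finset α} {x y : α} (h : B.Con x y) (hx : x ∈ P) (hy : y ∈ P) :
    B.Run P x y := by
  obtain ⟨h3, h4, h5⟩ := h
  refine ⟨hx, hy, h3, fun z hcz hh => ?_⟩
  rcases hh with hh | hh
  · rcases eq_or_lt_of_le hh.1 with he | hlt
    · rw [B.inj z x hcz he.symm]; exact hx
    · have := le_antisymm hh.2 (h5 z hcz hlt)
      rw [B.inj z y (hcz.trans h3) this]; exact hy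
  · exact absurd (lt_of_lt_of_le h4 (hh.1.trans hh.2)) (lt_irrefl _)

/-- admissible triples -/
private def Adm (B : BG α n) (P : Finset α) (x y : α) (s : ℕ) (a b : ℕ → α) : Prop :=
  1 ≤ s ∧ a 0 = x ∧ b (s - 1) = y ∧ (∀ j < s, B.Run P (a j) (b j)) ∧
    ∀ j, j + 1 < s → B.Run P (b j) (a (j + 1)) ∨ B.X (b j) (a (j + 1))

private theorem adm_app {P : Finset α} {x y u : α} {s : ℕ} {a b : ℕ → α}
    (h : Adm B P x y s a b) (hu : B.Run P u u)
    (hr : B.Run P y u ∨ B.X y u) : ∃ s' a' b', Adm B P x u s' a' b' := by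
  obtain ⟨h1, h2, h3, h4, h5⟩ := h
  refine ⟨s + 1, fun j => if j < s then a j else u, fun j => if j < s then b j else u, by omega,
    ?_, ?_, ?_, ?_⟩
  · simp only
    rw [if_pos (by omega), h2]
  · simp only
    rw [if_neg (by omega)]
  · intro j hj
    simp only
    by_cases hjs : j < s
    · rw [if_pos hjs, if_pos hjs]
      exact h4 j hjs
    · rw [if_neg hjs, if_neg hjs]
      exact hu
  · intro j hj
    simp only
    by_cases hjs : j + 1 < s
    · rw [if_pos hjs, if_pos (by omega : j < s)]
      exact h5 j hjs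
    · rw [if_neg hjs, if_pos (by omega : j < s)]
      have : j = s - 1 := by omega
      rw [this, h3]
      exact hr

private theorem adm_cut {P : Finset α} {x y : α} {s : ℕ}
    {a b : ℕ → α} (h : Adm B P x y s a b) {j j' : ℕ} (hjj : j < j') (hj' : j' < s)
    (hr : B.Run P (a j) (a j')) : ∃ s' a' b', s' < s ∧ Adm B P x y s' a' b' := by
  obtain ⟨h1, h2, h3, h4, h5⟩ := h
  refine ⟨s - (j' - j), fun k => if k ≤ j then a k else a (k + (j' - j)),
    fun k => if k < j then b k else b (k + (j' - j)), by omega, by omega, ?_, ?_, ?_, ?_⟩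
  · simp only
    rw [if_pos (Nat.zero_le j), h2]
  · simp only
    rw [if_neg (by omega)]
    have : s - (j' - j) - 1 + (j' - j) = s - 1 := by omega
    rw [this, h3]
  · intro k hk
    simp only
    rcases lt_trichotomy k j with hkj | hkj | hkj
    · rw [if_pos hkj.le, if_pos hkj]
      exact h4 k (by omega)
    · rw [if_pos hkj.le, if_neg (by omega)]
      have : k + (j' - j) = j' := by omega
      rw [this, hkj]
      exact run_trans hr (h4 j' hj')
    · rw [if_neg (by omega), if_neg (by omega)]
      exact h4 _ (by omega)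
  · intro k hk
    simp only
    by_cases hkj : k < j
    · rw [if_pos hkj, if_pos (by omega : k + 1 ≤ j)]
      exact h5 k (by omega)
    · rw [if_neg hkj, if_neg (by omega : ¬ (k + 1 ≤ j))]
      have : k + 1 + (j' - j) = k + (j' - j) + 1 := by omega
      rw [this]
      exact h5 _ (by omega)

end

theorem reroute (h : S_Runs) : S_Reroute := by
  intro α _ _ n B T P Q h0 x y hwt hQP hconn hx hy
  classical
  -- existence
  have hex : ∃ s a b, Adm B P x y s a b := by
    by_contra hcon
    let A : Set α := {y' | y' ∈ Q ∧ ∃ s a b, Adm B P x y' s a b}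
    obtain ⟨v, hv, u, hu, hadj⟩ := hconn.2 A (fun z hz => hz.1)
      ⟨x, hx, 1, fun _ => x, fun _ => x, le_refl 1, rfl, rfl,
        fun _ _ => run_refl (hQP hx), fun j hj => absurd hj (by omega)⟩
      (fun he => hcon (by
        have : y ∈ A := by
          rw [he]
          exact hy
        exact this.2))
    obtain ⟨hvQ, s, a, b, hadm⟩ := hv
    apply hu.2
    refine ⟨hu.1, adm_app hadm (run_refl (hQP hu.1)) ?_⟩
    rcases hadj with ⟨_, _, h' | h' | h'⟩
    · exact Or.inl (run_cons h' (hQP hvQ) (hQP hu.1))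
    · exact Or.inl (run_symm (run_cons h' (hQP hu.1) (hQP hvQ)))
    · exact Or.inr h'
  obtain ⟨s, ⟨a, b, hadm⟩, hmin⟩ : ∃ s, (∃ a b, Adm B P x y s a b) ∧
      ∀ s' < s, ¬ ∃ a b, Adm B P x y s' a b :=
    ⟨Nat.find hex, Nat.find_spec hex, fun s' hs' => Nat.find_min hex hs'⟩
  have hno : ∀ j j', j < j' → j' < s → ¬ B.Run P (a j) (a j') := by
    intro j j' hjj hj' hr
    obtain ⟨s', a', b', hlt, hadm'⟩ := adm_cut hadm hjj hj' hr
    exact hmin s' hlt ⟨a', b', hadm'⟩
  obtain ⟨g1, g2, g3, g4, g5⟩ := hadm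
  have hself : ∀ j < s, B.Run P (a j) (a j) := fun j hj => run_refl (g4 j hj).1
  refine ⟨s, a, b, g1, ?_, g2, g3, g4, ?_⟩
  · have hinj : Set.InjOn a (Finset.range s : Set ℕ) := by
      intro j hj j' hj' he
      rw [Finset.mem_coe, Finset.mem_range] at hj hj'
      rcases lt_trichotomy j j' with hlt | heq | hlt
      · exfalso
        refine hno j j' hlt hj' ?_
        rw [← he]
        exact hself j hj
      · exact heq
      · exfalso
        refine hno j' j hlt hj ?_
        rw [he]
        exact hself j' hj'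
    have hcard := h α n B P ((Finset.range s).image a)
      (fun z hz => by
        obtain ⟨j, hj, rfl⟩ := Finset.mem_image.1 hz
        rw [Finset.mem_range] at hj
        exact (g4 j hj).1)
      (fun z hz z' hz' hne hr => by
        obtain ⟨j, hj, rfl⟩ := Finset.mem_image.1 hz
        obtain ⟨j', hj', rfl⟩ := Finset.mem_image.1 hz'
        rw [Finset.mem_range] at hj hj'
        rcases lt_trichotomy j j' with hlt | heq | hlt
        · exact hno j j' hlt hj' hr
        · exact hne (by rw [heq])
        · exact hno j' j hlt hj (run_symm hr))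
    rw [Finset.card_image_of_injOn hinj, Finset.card_range] at hcard
    exact hcard.trans (Nat.add_le_add_left hwt n)
  · intro j hj
    rcases g5 j hj with h' | h'
    · exact absurd (run_trans (g4 j (by omega)) h') (hno j (j + 1) (Nat.lt_succ_self j) hj)
    · exact h'

end Pool.Agent.MPd439b2.VX
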