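import Pool.Agent.Lib.MP_d439b2_co.VX.Spec

/-!
# MP_d439b2_co, VX, A9: the number of the runs
-/

set_option autoImplicit false

namespace Pool.Agent.MPd439b2.VX

open Pool.Agent.MPd439b2

private theorem Runs_con {α : Type} {n : ℕ} (B : BG α n) {x z z' : α} (h : B.Con x z)
    (h' : B.Con x z') : z = z' := by
  obtain ⟨h1, h2, h3⟩ := h
  obtain ⟨h1', h2', h3'⟩ := h'
  refine B.inj z z' (h1.symm.trans h1') ?_
  exact le_antisymm (h3 z' h1'.symm h2') (h3' z h1.symm h2)

theorem runs : S_Runs := by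
  classical
  intro α _ _ n B P T hT hrun
  let K : α → Finset α := fun x =>
    Finset.univ.filter fun z => B.c z = B.c x ∧ B.ρ x < B.ρ z ∧ z ∉ P
  have memK : ∀ x z, z ∈ K x ↔ B.c z = B.c x ∧ B.ρ x < B.ρ z ∧ z ∉ P := by
    intro x z
    simp only [K, Finset.mem_filter, Finset.mem_univ, true_and]
  have key : ∀ x ∈ T, ∀ y ∈ T, B.c x = B.c y → B.ρ x < B.ρ y → ∃ u ∈ K x, B.ρ u ≤ B.ρ y := by
    intro x hx y hy hxy hlt
    by_contra hno
    push Not at hno
    apply hrun x hx y hy (fun h => by rw [h] at hlt; exact lt_irrefl _ hlt)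
    refine ⟨hT x hx, hT y hy, hxy, ?_⟩
    intro z hzc hzz
    rcases hzz with ⟨h1, h2⟩ | ⟨h1, h2⟩
    · by_contra hzR
      rcases h1.lt_or_eq with h3 | h3
      · exact absurd h2 (not_le_of_gt (hno z ((memK x z).2 ⟨hzc, h3, hzR⟩)))
      · have h4 : x = z := B.inj x z hzc.symm h3
        exact hzR (h4 ▸ hT x hx)
    · exact absurd (h1.trans h2) (not_le_of_gt hlt)
  have h0 : (T.filter (fun x => ¬ (K x).Nonempty)).card ≤ n := by
    have : (T.filter (fun x => ¬ (K x).Nonempty)).card ≤ (Finset.univ : Finset (Fin n)).card := by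
      apply Finset.card_le_card_of_injOn B.c (fun _ _ => Finset.mem_coe.2 (Finset.mem_univ _))
      intro x hx y hy hxy
      rw [Finset.mem_coe, Finset.mem_filter] at hx hy
      by_contra hne
      rcases lt_trichotomy (B.ρ x) (B.ρ y) with h1 | h1 | h1
      · obtain ⟨u, hu, -⟩ := key x hx.1 y hy.1 hxy h1
        exact hx.2 ⟨u, hu⟩
      · exact hne (B.inj x y hxy h1)
      · obtain ⟨u, hu, -⟩ := key y hy.1 x hx.1 hxy.symm h1
        exact hy.2 ⟨u, hu⟩
    simpa using this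
  have hex : ∀ x, x ∈ T.filter (fun x => (K x).Nonempty) →
      ∃ y z : α, y ∈ P ∧ B.Con y z ∧ z ∈ K x ∧ ∀ w ∈ K x, B.ρ z ≤ B.ρ w := by
    intro x hx
    rw [Finset.mem_filter] at hx
    obtain ⟨hxT, hxK⟩ := hx
    obtain ⟨z, hz, hzl⟩ := (K x).exists_min_image B.ρ hxK
    obtain ⟨hzc, hxz, hzR⟩ := (memK x z).1 hz
    obtain ⟨y, hy, hyg⟩ := (Finset.univ.filter fun y => B.c y = B.c x ∧ B.ρ y < B.ρ z).exists_max_image
      B.ρ ⟨x, Finset.mem_filter.2 ⟨Finset.mem_univ x, rfl, hxz⟩⟩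
    rw [Finset.mem_filter] at hy
    obtain ⟨-, hyc, hyz⟩ := hy
    have hxy : B.ρ x ≤ B.ρ y := hyg x (Finset.mem_filter.2 ⟨Finset.mem_univ x, rfl, hxz⟩)
    have hyR : y ∈ P := by
      by_contra hyR
      rcases hxy.lt_or_eq with h1 | h1
      · exact absurd (hzl y ((memK x y).2 ⟨hyc, h1, hyR⟩)) (not_le_of_gt hyz)
      · have h2 : x = y := B.inj x y hyc.symm h1
        exact hyR (h2 ▸ hT x hxT)
    refine ⟨y, z, hyR, ⟨hyc.trans hzc.symm, hyz, ?_⟩, hz, hzl⟩
    intro w hwc hyw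
    by_contra hcon
    push Not at hcon
    exact absurd (hyg w (Finset.mem_filter.2 ⟨Finset.mem_univ w, hwc.trans hyc, hcon⟩))
      (not_le_of_gt hyw)
  have h1 : (T.filter (fun x => (K x).Nonempty)).card ≤
      {x | x ∈ P ∧ ∃ z, B.Con x z ∧ z ∉ P}.ncard := by
    rcases (T.filter (fun x => (K x).Nonempty)).eq_empty_or_nonempty with he | ⟨z0, _⟩
    · rw [he]
      simp
    have : Nonempty α := ⟨z0⟩
    choose! φ ζ hφ1 hφ2 hφ3 hφ4 using hex
    rw [← Set.ncard_coe_finset]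
    refine Set.ncard_le_ncard_of_injOn φ ?_ ?_ (Set.toFinite _)
    · intro x hx
      have hx' := Finset.mem_coe.1 hx
      exact ⟨hφ1 x hx', ζ x, hφ2 x hx', ((memK x _).1 (hφ3 x hx')).2.2⟩
    · intro x hx y hy hxy
      rw [Finset.mem_coe] at hx hy
      by_contra hne
      have e1 := (memK x _).1 (hφ3 x hx)
      have e2 := (memK y _).1 (hφ3 y hy)
      have hz : ζ x = ζ y := by
        have c1 := hφ2 x hx
        rw [hxy] at c1
        exact Runs_con B c1 (hφ2 y hy)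
      have hcxy : B.c x = B.c y := by rw [← e1.1, ← e2.1, hz]
      rcases lt_trichotomy (B.ρ x) (B.ρ y) with h1 | h1 | h1
      · obtain ⟨u, hu, huy⟩ := key x (Finset.mem_filter.1 hx).1 y (Finset.mem_filter.1 hy).1 hcxy h1
        have h2 := hφ4 x hx u hu
        rw [hz] at h2
        exact absurd (h2.trans huy) (not_le_of_gt e2.2.1)
      · exact hne (B.inj x y hcxy h1)
      · obtain ⟨u, hu, huy⟩ := key y (Finset.mem_filter.1 hy).1 x (Finset.mem_filter.1 hx).1
          hcxy.symm h1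
        have h2 := hφ4 y hy u hu
        rw [← hz] at h2
        exact absurd (h2.trans huy) (not_le_of_gt e1.2.1)
  have h2 := Finset.card_filter_add_card_filter_not (s := T) (fun x => (K x).Nonempty)
  omega

end Pool.Agent.MPd439b2.VX
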