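import Pool.Agent.Lib.MP_d439b2_co.VX.Spec

/-!
# MP_d439b2_co, VX, A3: thresholds and pigeonhole
-/

set_option autoImplicit false

namespace Pool.Agent.MPd439b2.VX

open Pool.Agent.MPd439b2

namespace SysAux

/-- the thresholds -/
def Nf (n : ℕ) (f : ℕ → ℕ) : ℕ → ℕ
  | 0 => 2
  | j + 1 => max (Nf n f j) (n * f (Nf n f j) + 2)

theorem Nf_mono (n : ℕ) (f : ℕ → ℕ) : Monotone (Nf n f) :=
  monotone_nat_of_le_succ fun _ => le_max_left _ _

theorem Nf_two (n : ℕ) (f : ℕ → ℕ) (j : ℕ) : 2 ≤ Nf n f j := Nf_mono n f (Nat.zero_le j)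

theorem WL_sub {α : Type} [DecidableEq α] {E : Finset (α × α)} {S S' : Finset α} (h : WL E S')
    (hS : S ⊆ S') : WL E S := by
  intro Y hY
  refine (min_le_min ?_ ?_).trans (h Y hY)
  · exact Finset.card_le_card (Finset.inter_subset_inter_right hS)
  · exact Finset.card_le_card (Finset.inter_subset_inter_right hS)

theorem c_mem {α : Type} [Fintype α] [DecidableEq α] {n : ℕ} {B : BG α n} {T : Finset (Fin n)}
    {F : Finset (α × α)} (hF : F ⊆ B.Ed T) {x : α} (hx : x ∈ vs F) : B.c x ∈ T := by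
  rw [mem_vs] at hx
  obtain ⟨y, hy | hy⟩ := hx
  · exact (BG.mem_Ed.1 (hF hy)).1
  · have h1 := BG.mem_Ed.1 (hF hy)
    rcases h1.2 with h2 | h2
    · have h3 : y = x := h2
      rw [← h3]
      exact h1.1
    · exact h2.2.1

end SysAux

open SysAux in
theorem sys (h1 : S_Carve) (h2 : S_BadWL) : S_Sys := by
  classical
  intro n f
  refine ⟨Nf n f n, ?_⟩
  intro α _ inst B
  have hinst : inst = Classical.decEq α := Subsingleton.elim _ _
  subst hinst
  by_cases hu : Carv (B.Ed Finset.univ) (Nf n f n) (B.Ed Finset.univ)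
  · exact Or.inl hu
  right
  -- the minimal set of chains
  have hex : ∃ m, ∃ T : Finset (Fin n), T.card = m ∧ ¬ Carv (B.Ed T) (Nf n f T.card) (B.Ed T) :=
    ⟨n, Finset.univ, by simp, by simpa using hu⟩
  obtain ⟨T, hTm, hT⟩ := Nat.find_spec hex
  have hmin : ∀ T' : Finset (Fin n), T'.card < T.card →
      Carv (B.Ed T') (Nf n f T'.card) (B.Ed T') := by
    intro T' hT'
    by_contra hcon
    have h3 := Nat.find_min' hex ⟨T', rfl, hcon⟩
    omega
  have hTne : T.Nonempty := by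
    rw [Finset.nonempty_iff_ne_empty]
    rintro rfl
    apply hT
    have h3 : B.Ed ∅ = ∅ := by
      rw [Finset.eq_empty_iff_forall_notMem]
      intro p hp
      exact absurd (BG.mem_Ed.1 hp).1 (Finset.notMem_empty _)
    rw [h3]
    exact Carv.empty
  obtain ⟨j, hj⟩ : ∃ j, T.card = j + 1 := ⟨T.card - 1, by
    have := Finset.card_pos.2 hTne
    omega⟩
  rw [hj] at hT
  obtain ⟨Z, hZ⟩ := (h1 α (B.Ed T) (Nf n f (j + 1)) (Nf_two n f _)).resolve_left hT
  have hWL := h2 α (B.Ed T) Z (Nf n f (j + 1)) hZ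
  set S₀ := bd (B.Ed T) Z with hS₀
  have hc : ∀ x ∈ S₀, B.c x ∈ T := by
    intro x hx
    rw [hS₀, bd, Finset.mem_inter] at hx
    exact c_mem hZ.1 hx.1
  have hcard : n * f (Nf n f j) + 1 ≤ S₀.card := by
    have h3 : Nf n f (j + 1) ≤ S₀.card + 1 := hZ.2.1
    have h4 : n * f (Nf n f j) + 2 ≤ Nf n f (j + 1) := le_max_right _ _
    omega
  have hTn : T.card ≤ n := by
    have := Finset.card_le_univ T
    rwa [Fintype.card_fin] at this
  have hpig : ∃ i ∈ T, f (Nf n f j) < (S₀.filter fun x => B.c x = i).card := by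
    apply Finset.exists_lt_card_fiber_of_mul_lt_card_of_maps_to hc
    have h3 : T.card * f (Nf n f j) ≤ n * f (Nf n f j) := Nat.mul_le_mul_right _ hTn
    omega
  obtain ⟨i, hi, hi2⟩ := hpig
  have herase : (T.erase i).card = j := by
    rw [Finset.card_erase_of_mem hi, hj, Nat.add_sub_cancel]
  refine ⟨T, i, Nf n f j, S₀.filter fun x => B.c x = i, hi, Nf_two n f j,
    Nf_mono n f (by omega), ?_, ?_, hi2.le, ?_⟩
  · have h3 := hmin (T.erase i) (by omega)
    rwa [herase] at h3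
  · intro x hx
    exact (Finset.mem_filter.1 hx).2
  · exact WL_sub hWL (Finset.filter_subset _ _)

end Pool.Agent.MPd439b2.VX
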