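import Pool.Agent.Lib.MP_d439b2_co.VX.Spec

set_option autoImplicit false

namespace Pool.Agent.MPd439b2.VX

open Pool.Agent.MPd439b2

section

variable {α : Type} {n : ℕ} {G : BG α n}

private theorem trk_lt {x y : α} (hcc : G.c x = G.c y) (hne : x ≠ y) :
    G.ρ x < G.ρ y ∨ G.ρ y < G.ρ x := by
  rcases lt_trichotomy (G.ρ x) (G.ρ y) with h | h | h
  · exact Or.inl h
  · exact absurd (G.inj x y hcc h) hne
  · exact Or.inr h

private theorem trk_cmp {R R' : Finset α} {x y : α}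
    (hcc : G.c x = G.c y) (hx : x ∈ R) (hy : y ∈ R') (hd : Disjoint R R') :
    G.ρ x < G.ρ y ∨ G.ρ y < G.ρ x := by
  refine trk_lt hcc ?_
  rintro rfl
  exact Finset.disjoint_left.1 hd hx hy

private theorem trk_half {R R' : Finset α} {A A' B' : α} (hA : A ∈ R)
    (h' : G.Run R' A' B') (hcc : G.c A = G.c A') (hd : Disjoint R R')
    (h1 : G.ρ A < G.ρ A' ∨ G.ρ A' < G.ρ A) (h2 : G.ρ A < G.ρ B' ∨ G.ρ B' < G.ρ A) :
    (G.ρ A < G.ρ A' ∧ G.ρ A < G.ρ B') ∨ (G.ρ A' < G.ρ A ∧ G.ρ B' < G.ρ A) := by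
  obtain ⟨_, _, _, k6⟩ := h'
  have hno : ¬ (G.ρ A' ≤ G.ρ A ∧ G.ρ A ≤ G.ρ B' ∨ G.ρ B' ≤ G.ρ A ∧ G.ρ A ≤ G.ρ A') := fun hh =>
    Finset.disjoint_left.1 hd hA (k6 A hcc hh)
  rcases h1 with h1 | h1 <;> rcases h2 with h2 | h2
  · exact Or.inl ⟨h1, h2⟩
  · exact absurd (Or.inr ⟨h2.le, h1.le⟩) hno
  · exact absurd (Or.inl ⟨h1.le, h2.le⟩) hno
  · exact Or.inr ⟨h1, h2⟩

private theorem trk_sep {R R' : Finset α} {A B A' B' : α}
    (h : G.Run R A B) (h' : G.Run R' A' B') (hcc : G.c A = G.c A') (hd : Disjoint R R') :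
    (G.ρ A < G.ρ A' ∧ G.ρ A < G.ρ B' ∧ G.ρ B < G.ρ A' ∧ G.ρ B < G.ρ B') ∨
      (G.ρ A' < G.ρ A ∧ G.ρ A' < G.ρ B ∧ G.ρ B' < G.ρ A ∧ G.ρ B' < G.ρ B) := by
  have hk' := h'
  obtain ⟨h2, h4, h5, h6⟩ := h
  obtain ⟨k2, k4, k5, k6⟩ := h'
  have eA := trk_half h2 hk' hcc hd (trk_cmp hcc h2 k2 hd)
    (trk_cmp (hcc.trans k5) h2 k4 hd)
  have eB := trk_half h4 hk' (h5.symm.trans hcc) hd (trk_cmp (h5.symm.trans hcc) h4 k2 hd)
    (trk_cmp (h5.symm.trans (hcc.trans k5)) h4 k4 hd)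
  have hno : ¬ (G.ρ A ≤ G.ρ A' ∧ G.ρ A' ≤ G.ρ B ∨ G.ρ B ≤ G.ρ A' ∧ G.ρ A' ≤ G.ρ A) := fun hh =>
    Finset.disjoint_left.1 hd (h6 A' hcc.symm hh) k2
  rcases eA with eA | eA <;> rcases eB with eB | eB
  · exact Or.inl ⟨eA.1, eA.2, eB.1, eB.2⟩
  · exact absurd (Or.inl ⟨eA.1.le, eB.1.le⟩) hno
  · exact absurd (Or.inr ⟨eB.1.le, eA.1.le⟩) hno
  · exact Or.inr ⟨eA.1, eB.1, eA.2, eB.2⟩

/-- the extended itinerary -/
private def ext (a b : ℕ → α) (s : ℕ → ℕ) (A : ℕ → ℕ → α) (k j : ℕ) : α :=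
  if j = 0 then a k else if j ≤ s k then A k (j - 1) else b k

private theorem ext_zero (a b : ℕ → α) (s : ℕ → ℕ) (A : ℕ → ℕ → α) (k : ℕ) :
    ext a b s A k 0 = a k := if_pos rfl

private theorem ext_mid (a b : ℕ → α) (s : ℕ → ℕ) (A : ℕ → ℕ → α) (k j : ℕ) (h : j < s k) :
    ext a b s A k (j + 1) = A k j := by
  unfold ext
  rw [if_neg (Nat.succ_ne_zero j), if_pos (by omega)]
  rfl

private theorem ext_last (a b : ℕ → α) (s : ℕ → ℕ) (A : ℕ → ℕ → α) (k j : ℕ) (h : s k < j) :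
    ext a b s A k j = b k := by
  unfold ext
  rw [if_neg (by omega), if_neg (by omega)]

end

theorem trackOf : S_TrackOf := by
  classical
  intro n h m
  refine ⟨Fintype.card (Fin (n + h + 1) × (Fin (n + h + 2) → Fin n) × Bool) * (m + 1), ?_⟩
  intro α _ _ G T i a b P s A B hab hdis hPT hit
  -- the types
  let A2 := ext a b s A
  let B2 := ext a b s B
  let ty : ℕ → Fin (n + h + 1) × (Fin (n + h + 2) → Fin n) × Bool := fun k =>
    (⟨min (s k) (n + h), by omega⟩, fun j => G.c (A2 k j), decide (G.ρ (a k) < G.ρ (b k)))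
  set M := Fintype.card (Fin (n + h + 1) × (Fin (n + h + 2) → Fin n) × Bool) * (m + 1) with hM
  obtain ⟨τ, _, hτ⟩ := Finset.exists_le_card_fiber_of_mul_le_card_of_maps_to
    (s := Finset.range M) (t := Finset.univ) (f := ty) (n := m + 1) (fun _ _ => Finset.mem_univ _)
    ⟨(⟨0, by omega⟩, fun _ => i, true), Finset.mem_univ _⟩
    (by rw [Finset.card_range, Finset.card_univ])
  obtain ⟨Φ, hΦs, hΦc⟩ := Finset.exists_subset_card_eq hτ
  let e := Φ.equivFinOfCardEq hΦc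
  let κ : ℕ → ℕ := fun k => if hk : k < m + 1 then (e.symm ⟨k, hk⟩).1 else 0
  have hκΦ : ∀ k, k < m + 1 → κ k ∈ Φ := by
    intro k hk
    show (if hk : k < m + 1 then (e.symm ⟨k, hk⟩).1 else 0) ∈ Φ
    rw [dif_pos hk]
    exact (e.symm ⟨k, hk⟩).2
  have hκinj : ∀ k, k < m + 1 → ∀ l, l < m + 1 → k ≠ l → κ k ≠ κ l := by
    intro k hk l hl hkl he
    apply hkl
    have he' : (if hk : k < m + 1 then (e.symm ⟨k, hk⟩).1 else 0) =
      (if hk : l < m + 1 then (e.symm ⟨l, hk⟩).1 else 0) := he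
    rw [dif_pos hk, dif_pos hl] at he'
    have h2 := e.symm.injective (Subtype.ext he')
    exact congrArg Fin.val h2
  have hκM : ∀ k, k < m + 1 → κ k < M := by
    intro k hk
    have := hΦs (hκΦ k hk)
    exact Finset.mem_range.1 (Finset.mem_filter.1 this).1
  have hκt : ∀ k, k < m + 1 → ty (κ k) = τ := by
    intro k hk
    have := hΦs (hκΦ k hk)
    exact (Finset.mem_filter.1 this).2
  have h0 : 0 < m + 1 := by omega
  have hty : ∀ k, k < m + 1 → ty (κ k) = ty (κ 0) := fun k hk =>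
    (hκt k hk).trans (hκt 0 h0).symm
  have hs : ∀ k, k < m + 1 → s (κ k) = s (κ 0) := by
    intro k hk
    have h1 := congrArg (fun z => (z.1 : Fin (n + h + 1)).val) (hty k hk)
    have h2 : min (s (κ k)) (n + h) = min (s (κ 0)) (n + h) := h1
    have h3 := (hit (κ k) (hκM k hk)).2.1
    have h4 := (hit (κ 0) (hκM 0 h0)).2.1
    omega
  have hcA : ∀ k, k < m + 1 → ∀ j ≤ s (κ 0) + 1, G.c (A2 (κ k) j) = G.c (A2 (κ 0) j) := by
    intro k hk j hj
    have h4 := (hit (κ 0) (hκM 0 h0)).2.1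
    have h1 := congrFun (congrArg (fun z => z.2.1) (hty k hk)) (⟨j, by omega⟩ : Fin (n + h + 2))
    exact h1
  have hρ : ∀ k, k < m + 1 → (G.ρ (a (κ k)) < G.ρ (b (κ k)) ↔ G.ρ (a (κ 0)) < G.ρ (b (κ 0))) := by
    intro k hk
    have h1 := congrArg (fun z => z.2.2) (hty k hk)
    have h2 : decide (G.ρ (a (κ k)) < G.ρ (b (κ k))) = decide (G.ρ (a (κ 0)) < G.ρ (b (κ 0))) := h1
    exact decide_eq_decide.1 h2
  have hcB : ∀ k, k < m + 1 → ∀ j ≤ s (κ 0) + 1, G.c (B2 (κ k) j) = G.c (A2 (κ k) j) := by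
    intro k hk j hj
    rcases Nat.eq_zero_or_pos j with hj0 | hj0
    · subst hj0
      show G.c (ext a b s B (κ k) 0) = G.c (ext a b s A (κ k) 0)
      rw [ext_zero, ext_zero]
    · obtain ⟨j', rfl⟩ : ∃ j', j = j' + 1 := ⟨j - 1, by omega⟩
      by_cases hj2 : j' < s (κ k)
      · show G.c (ext a b s B (κ k) (j' + 1)) = G.c (ext a b s A (κ k) (j' + 1))
        rw [ext_mid _ _ _ _ _ _ hj2, ext_mid _ _ _ _ _ _ hj2]
        exact ((hit (κ k) (hκM k hk)).2.2.2.2.1 j' hj2).2.2.1.symm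
      · show G.c (ext a b s B (κ k) (j' + 1)) = G.c (ext a b s A (κ k) (j' + 1))
        rw [ext_last _ _ _ _ _ _ (by omega), ext_last _ _ _ _ _ _ (by omega)]
  have hstep : ∀ k, k < m + 1 → ∀ j < s (κ 0) + 1, G.X (B2 (κ k) j) (A2 (κ k) (j + 1)) := by
    intro k hk j hj
    obtain ⟨g1, g2, g3, g4, g5, g6⟩ := hit (κ k) (hκM k hk)
    have hsk := hs k hk
    rcases Nat.eq_zero_or_pos j with hj0 | hj0
    · subst hj0
      show G.X (ext a b s B (κ k) 0) (ext a b s A (κ k) (0 + 1))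
      rw [ext_zero, ext_mid _ _ _ _ _ _ (by omega)]
      exact g3
    · obtain ⟨j', rfl⟩ : ∃ j', j = j' + 1 := ⟨j - 1, by omega⟩
      show G.X (ext a b s B (κ k) (j' + 1)) (ext a b s A (κ k) (j' + 1 + 1))
      by_cases hj2 : j' + 1 < s (κ k)
      · rw [ext_mid _ _ _ _ _ _ (by omega), ext_mid _ _ _ _ _ _ hj2]
        exact g6 j' hj2
      · rw [ext_mid _ _ _ _ _ _ (by omega), ext_last _ _ _ _ _ _ (by omega)]
        have : j' = s (κ k) - 1 := by omega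
        rw [this]
        exact g4
  have hs1 : 1 ≤ s (κ 0) := (hit (κ 0) (hκM 0 h0)).1
  have hs2 : s (κ 0) ≤ n + h := (hit (κ 0) (hκM 0 h0)).2.1
  have hlA : ∀ k, k < m + 1 → A2 (κ k) (s (κ 0) + 1) = b (κ k) := fun k hk =>
    ext_last _ _ _ _ _ _ (by rw [hs k hk]; omega)
  have hlB : ∀ k, k < m + 1 → B2 (κ k) (s (κ 0) + 1) = b (κ k) := fun k hk =>
    ext_last _ _ _ _ _ _ (by rw [hs k hk]; omega)
  refine ⟨s (κ 0) + 1, κ, fun k j => A2 (κ k) j, fun k j => B2 (κ k) j,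
    fun j => G.c (A2 (κ 0) j), by omega, ?_, ?_, ?_⟩
  · intro k hk
    exact ⟨hκM k (by omega), ext_zero _ _ _ _ _, hlA k (by omega)⟩
  · by_cases hlt : G.ρ (a (κ 0)) < G.ρ (b (κ 0))
    · exact Or.inl fun k hk => (hρ k (by omega)).2 hlt
    · refine Or.inr fun k hk => ?_
      obtain ⟨c1, c2, c3⟩ := hab (κ k) (hκM k (by omega))
      rcases trk_lt (c1.trans c2.symm) c3 with h' | h'
      · exact absurd ((hρ k (by omega)).1 h') hlt
      · exact h'
  · refine ⟨by omega, fun k hk j hj => hcA k (by omega) j hj,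
      fun k hk j hj => (hcB k (by omega) j hj).trans (hcA k (by omega) j hj),
      ?_, fun k hk j hj => hstep k (by omega) j hj, ?_, ?_, ?_, ?_, ?_⟩
    · intro k hk k' hk' hkk j hj
      have hk1 : k < m + 1 := by omega
      have hk1' : k' < m + 1 := by omega
      have hκne := hκinj k hk1 k' hk1' hkk
      obtain ⟨d1, d2, d3⟩ := hdis (κ k) (hκM k hk1) (κ k') (hκM k' hk1') hκne
      obtain ⟨ca, cb, _⟩ := hab (κ k) (hκM k hk1)
      obtain ⟨ca', cb', _⟩ := hab (κ k') (hκM k' hk1')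
      have hsk := hs k hk1
      have hsk' := hs k' hk1'
      rcases Nat.eq_zero_or_pos j with hj0 | hj0
      · subst hj0
        show (G.ρ (ext a b s A (κ k) 0) < G.ρ (ext a b s A (κ k') 0) ∧
          G.ρ (ext a b s A (κ k) 0) < G.ρ (ext a b s B (κ k') 0) ∧
          G.ρ (ext a b s B (κ k) 0) < G.ρ (ext a b s A (κ k') 0) ∧
          G.ρ (ext a b s B (κ k) 0) < G.ρ (ext a b s B (κ k') 0)) ∨
          (G.ρ (ext a b s A (κ k') 0) < G.ρ (ext a b s A (κ k) 0) ∧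
          G.ρ (ext a b s A (κ k') 0) < G.ρ (ext a b s B (κ k) 0) ∧
          G.ρ (ext a b s B (κ k') 0) < G.ρ (ext a b s A (κ k) 0) ∧
          G.ρ (ext a b s B (κ k') 0) < G.ρ (ext a b s B (κ k) 0))
        simp only [ext_zero]
        rcases trk_lt (ca.trans ca'.symm) d1 with h' | h'
        · exact Or.inl ⟨h', h', h', h'⟩
        · exact Or.inr ⟨h', h', h', h'⟩
      · obtain ⟨j', rfl⟩ : ∃ j', j = j' + 1 := ⟨j - 1, by omega⟩
        show (G.ρ (ext a b s A (κ k) (j' + 1)) < G.ρ (ext a b s A (κ k') (j' + 1)) ∧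
          G.ρ (ext a b s A (κ k) (j' + 1)) < G.ρ (ext a b s B (κ k') (j' + 1)) ∧
          G.ρ (ext a b s B (κ k) (j' + 1)) < G.ρ (ext a b s A (κ k') (j' + 1)) ∧
          G.ρ (ext a b s B (κ k) (j' + 1)) < G.ρ (ext a b s B (κ k') (j' + 1))) ∨
          (G.ρ (ext a b s A (κ k') (j' + 1)) < G.ρ (ext a b s A (κ k) (j' + 1)) ∧
          G.ρ (ext a b s A (κ k') (j' + 1)) < G.ρ (ext a b s B (κ k) (j' + 1)) ∧
          G.ρ (ext a b s B (κ k') (j' + 1)) < G.ρ (ext a b s A (κ k) (j' + 1)) ∧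
          G.ρ (ext a b s B (κ k') (j' + 1)) < G.ρ (ext a b s B (κ k) (j' + 1)))
        by_cases hj2 : j' < s (κ 0)
        · have e1 := hcA k hk1 (j' + 1) hj
          have e2 := hcA k' hk1' (j' + 1) hj
          have e3 : G.c (ext a b s A (κ k) (j' + 1)) = G.c (ext a b s A (κ k') (j' + 1)) :=
            e1.trans e2.symm
          rw [ext_mid _ _ _ A (κ k) j' (by omega), ext_mid _ _ _ A (κ k') j' (by omega)] at e3
          rw [ext_mid _ _ _ A (κ k) j' (by omega), ext_mid _ _ _ A (κ k') j' (by omega),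
            ext_mid _ _ _ B (κ k) j' (by omega), ext_mid _ _ _ B (κ k') j' (by omega)]
          exact trk_sep ((hit (κ k) (hκM k hk1)).2.2.2.2.1 j' (by omega))
            ((hit (κ k') (hκM k' hk1')).2.2.2.2.1 j' (by omega)) e3 d3
        · rw [ext_last _ _ _ A (κ k) _ (by omega), ext_last _ _ _ A (κ k') _ (by omega),
            ext_last _ _ _ B (κ k) _ (by omega), ext_last _ _ _ B (κ k') _ (by omega)]
          rcases trk_lt (cb.trans cb'.symm) d2 with h' | h'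
          · exact Or.inl ⟨h', h', h', h'⟩
          · exact Or.inr ⟨h', h', h', h'⟩
    · intro k _
      show ext a b s A (κ k) 0 = ext a b s B (κ k) 0
      rw [ext_zero, ext_zero]
    · intro k hk
      exact (hlA k (by omega)).trans (hlB k (by omega)).symm
    · show G.c (ext a b s A (κ 0) 0) = i
      rw [ext_zero]
      exact (hab (κ 0) (hκM 0 h0)).1
    · show G.c (A2 (κ 0) (s (κ 0) + 1)) = i
      rw [hlA 0 h0]
      exact (hab (κ 0) (hκM 0 h0)).2.1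
    · intro j hj hjr
      obtain ⟨j', rfl⟩ : ∃ j', j = j' + 1 := ⟨j - 1, by omega⟩
      show G.c (ext a b s A (κ 0) (j' + 1)) ≠ i
      rw [ext_mid _ _ _ A (κ 0) j' (by omega)]
      have h1 := ((hit (κ 0) (hκM 0 h0)).2.2.2.2.1 j' (by omega)).1
      exact Finset.ne_of_mem_erase (hPT (κ 0) (hκM 0 h0) _ h1)

end Pool.Agent.MPd439b2.VX
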