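import Pool.Agent.Lib.MP_d439b2_co.VX.Spec

/-!
# MP_d439b2_co, VX: trimming the paths (A5)
-/

set_option autoImplicit false

namespace Pool.Agent.MPd439b2.VX

open Pool.Agent.MPd439b2

namespace Trm

variable {α : Type}

private theorem trim {G : SimpleGraph α} {A B : Finset α} {ν : ℕ} {p : ℕ → α}
    (hdj : ∀ x ∈ A, x ∉ B) (hp : GT.Pth G A B ν p) :
    ∃ σ τ, σ < τ ∧ τ ≤ ν ∧ p σ ∈ A ∧ p τ ∈ B ∧ ∀ s, σ < s → s < τ → p s ∉ A ∧ p s ∉ B := by
  classical
  let σ := Nat.findGreatest (fun s => p s ∈ A) ν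
  have hσA : p σ ∈ A := by
    have := Nat.findGreatest_spec (P := fun s => p s ∈ A) (Nat.zero_le ν) hp.head
    exact this
  have hσle : σ ≤ ν := Nat.findGreatest_le ν
  have hσmax : ∀ s, σ < s → s ≤ ν → p s ∉ A := fun s h1 h2 =>
    Nat.findGreatest_is_greatest h1 h2
  have hσν : σ < ν := by
    rcases hσle.lt_or_eq with h | h
    · exact h
    · exfalso
      have h1 : p ν ∈ A := h ▸ hσA
      exact hdj _ h1 hp.last
  have hex : ∃ t, σ < t ∧ p t ∈ B := ⟨ν, hσν, hp.last⟩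
  refine ⟨σ, Nat.find hex, (Nat.find_spec hex).1, Nat.find_min' hex ⟨hσν, hp.last⟩, hσA,
    (Nat.find_spec hex).2, fun s h1 h2 => ⟨hσmax s h1 ?_, fun h3 => ?_⟩⟩
  · exact h2.le.trans (Nat.find_min' hex ⟨hσν, hp.last⟩)
  · exact Nat.find_min hex h2 ⟨h1, h3⟩

private theorem path_conn [DecidableEq α] {G : SimpleGraph α} {p : ℕ → α} {σ τ : ℕ}
    (h0 : σ + 1 < τ) (hadj : ∀ s, σ < s → s + 1 < τ → G.Adj (p s) (p (s + 1))) :
    Conn G (((Finset.Ioo σ τ).image p : Finset α) : Set α) := by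
  have hmem : ∀ s, σ < s → s < τ → p s ∈ (((Finset.Ioo σ τ).image p : Finset α) : Set α) := by
    intro s h1 h2
    exact Finset.mem_coe.mpr (Finset.mem_image_of_mem p (Finset.mem_Ioo.mpr ⟨h1, h2⟩))
  refine ⟨⟨p (σ + 1), hmem _ (by omega) h0⟩, fun T hT hne hTne => ?_⟩
  by_contra hcon
  have hstep : ∀ s, σ < s → s + 1 < τ → (p s ∈ T ↔ p (s + 1) ∈ T) := by
    intro s h1 h2
    by_contra hiff
    apply hcon
    by_cases h3 : p s ∈ T
    · have h4 : p (s + 1) ∉ T := fun h4 => hiff ⟨fun _ => h4, fun _ => h3⟩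
      exact ⟨p s, h3, p (s + 1), ⟨hmem _ (by omega) h2, h4⟩, hadj s h1 h2⟩
    · have h4 : p (s + 1) ∈ T := by
        by_contra h4
        exact hiff ⟨fun h => absurd h h3, fun h => absurd h h4⟩
      exact ⟨p (s + 1), h4, p s, ⟨hmem _ h1 (by omega), h3⟩, (hadj s h1 h2).symm⟩
  have hall : ∀ j, σ + 1 + j < τ → (p (σ + 1) ∈ T ↔ p (σ + 1 + j) ∈ T) := by
    intro j
    induction j with
    | zero => intro _; exact Iff.rfl
    | succ j ih =>
      intro h
      rw [ih (by omega), hstep (σ + 1 + j) (by omega) (by omega)]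
      rfl
  have hidx : ∀ s, σ < s → s < τ → (p (σ + 1) ∈ T ↔ p s ∈ T) := by
    intro s h1 h2
    obtain ⟨j, rfl⟩ := Nat.exists_eq_add_of_le (show σ + 1 ≤ s from h1)
    exact hall j h2
  obtain ⟨t, ht⟩ := hne
  have ht' := hT ht
  rw [Finset.mem_coe, Finset.mem_image] at ht'
  obtain ⟨s, hs, rfl⟩ := ht'
  rw [Finset.mem_Ioo] at hs
  have h1 : p (σ + 1) ∈ T := (hidx s hs.1 hs.2).mpr ht
  apply hTne
  refine Set.Subset.antisymm hT fun x hx => ?_
  rw [Finset.mem_coe, Finset.mem_image] at hx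
  obtain ⟨s', hs', rfl⟩ := hx
  rw [Finset.mem_Ioo] at hs'
  exact (hidx s' hs'.1 hs'.2).mp h1

/-- an injection which avoids a set of at most two indices -/
private theorem avoid {M : ℕ} (s : Finset (Fin (M + 2))) (hs : s.card ≤ 2) :
    ∃ f : ℕ → Fin (M + 2), (∀ k < M, f k ∉ s) ∧ ∀ k < M, ∀ l < M, k ≠ l → f k ≠ f l := by
  classical
  have hc : M ≤ (sᶜ).card := by
    rw [Finset.card_compl, Fintype.card_fin]
    omega
  obtain ⟨C, hC, hCc⟩ := Finset.exists_subset_card_eq hc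
  refine ⟨fun k => if h : k < M then C.orderEmbOfFin hCc ⟨k, h⟩ else 0, ?_, ?_⟩
  · intro k hk
    simp only [dif_pos hk]
    have h1 := Finset.orderEmbOfFin_mem C hCc ⟨k, hk⟩
    exact Finset.mem_compl.mp (hC h1)
  · intro k hk l hl hkl he
    simp only [dif_pos hk, dif_pos hl] at he
    have h1 := (C.orderEmbOfFin hCc).injective he
    exact hkl (congrArg Fin.val h1)

end Trm

open Trm

theorem trim : S_Trim := by
  classical
  intro α _ _ n B T i J M ν p hInt hL
  have hmemJ : ∀ x, x ∈ J.filter (fun x => B.c x = i) ↔ x ∈ J ∧ B.c x = i := fun x =>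
    Finset.mem_filter
  have hdj : ∀ x ∈ (Finset.univ.filter fun x => B.c x = i ∧ x ∈ J),
      x ∉ (Finset.univ.filter fun x => B.c x = i ∧ x ∉ J) := by
    intro x hx hx'
    rw [Finset.mem_filter] at hx hx'
    exact hx'.2.2 hx.2.2
  have htrim := fun k => Trm.trim hdj (hL.pth k)
  choose σ τ hστ hτν hσA hτB hmid using htrim
  have hσA' : ∀ k, B.c (p k (σ k)) = i ∧ p k (σ k) ∈ J := fun k =>
    (Finset.mem_filter.mp (hσA k)).2
  have hτB' : ∀ k, B.c (p k (τ k)) = i ∧ p k (τ k) ∉ J := fun k =>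
    (Finset.mem_filter.mp (hτB k)).2
  have hσν : ∀ k, σ k < ν k := fun k => (hστ k).trans_le (hτν k)
  have hne : ∀ k k', k ≠ k' → B.ρ (p k (σ k)) ≠ B.ρ (p k' (σ k')) := by
    intro k k' hkk he
    exact hL.dis k k' hkk (σ k) (hσν k).le (σ k') (hσν k').le
      (B.inj _ _ ((hσA' k).1.trans (hσA' k').1.symm) he)
  -- the two kinds of short paths
  have h1 : ∀ k k', k ≠ k' → B.Con (p k (σ k)) (p k (τ k)) →
      B.ρ (p k (σ k)) < B.ρ (p k' (σ k')) → False := by
    intro k k' hkk hc hlt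
    have h2 := hc.2.2 (p k' (σ k')) ((hσA' k').1.trans (hσA' k).1.symm) hlt
    have h3 := hInt _ ((hmemJ _).mpr ⟨(hσA' k).2, (hσA' k).1⟩) _
      ((hmemJ _).mpr ⟨(hσA' k').2, (hσA' k').1⟩) (p k (τ k))
      ((hτB' k).1.trans (hσA' k).1.symm) hc.2.1.le h2
    exact (hτB' k).2 ((hmemJ _).mp h3).1
  have h2 : ∀ k k', k ≠ k' → B.Con (p k' (τ k')) (p k' (σ k')) →
      B.ρ (p k (σ k)) < B.ρ (p k' (σ k')) → False := by
    intro k k' hkk hc hlt
    have h3 : B.ρ (p k (σ k)) ≤ B.ρ (p k' (τ k')) := by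
      by_contra hcon
      have h4 := hc.2.2 (p k (σ k)) ((hσA' k).1.trans (hτB' k').1.symm) (by omega)
      omega
    have h5 := hInt _ ((hmemJ _).mpr ⟨(hσA' k).2, (hσA' k).1⟩) _
      ((hmemJ _).mpr ⟨(hσA' k').2, (hσA' k').1⟩) (p k' (τ k'))
      ((hτB' k').1.trans (hσA' k).1.symm) h3 hc.2.1.le
    exact (hτB' k').2 ((hmemJ _).mp h5).1
  let s1 : Finset (Fin (M + 2)) := Finset.univ.filter fun k => B.Con (p k (σ k)) (p k (τ k))
  let s2 : Finset (Fin (M + 2)) := Finset.univ.filter fun k => B.Con (p k (τ k)) (p k (σ k))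
  have hs1 : s1.card ≤ 1 := by
    rw [Finset.card_le_one]
    intro k hk k' hk'
    by_contra hkk
    have hk := (Finset.mem_filter.mp hk).2
    have hk' := (Finset.mem_filter.mp hk').2
    rcases lt_or_gt_of_ne (hne k k' hkk) with h | h
    · exact h1 k k' hkk hk h
    · exact h1 k' k (Ne.symm hkk) hk' h
  have hs2 : s2.card ≤ 1 := by
    rw [Finset.card_le_one]
    intro k hk k' hk'
    by_contra hkk
    have hk := (Finset.mem_filter.mp hk).2
    have hk' := (Finset.mem_filter.mp hk').2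
    rcases lt_or_gt_of_ne (hne k k' hkk) with h | h
    · exact h2 k k' hkk hk' h
    · exact h2 k' k (Ne.symm hkk) hk h
  obtain ⟨f, hf, hfinj⟩ := avoid (s1 ∪ s2) ((Finset.card_union_le _ _).trans (by omega))
  have hlong : ∀ k < M, σ (f k) + 1 < τ (f k) := by
    intro k hk
    by_contra hcon
    have he : τ (f k) = σ (f k) + 1 := by have := hστ (f k); omega
    have hadj := (hL.pth (f k)).adj (σ (f k)) (hσν (f k))
    rw [← he] at hadj
    apply hf k hk
    rw [Finset.mem_union]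
    rcases hadj.2.2 with h | h | h
    · exact Or.inl (Finset.mem_filter.mpr ⟨Finset.mem_univ _, h⟩)
    · exact Or.inr (Finset.mem_filter.mpr ⟨Finset.mem_univ _, h⟩)
    · exact absurd ((hσA' (f k)).1.trans (hτB' (f k)).1.symm) (B.ne _ _ h)
  -- the middle vertices
  have hmidc : ∀ k s, σ k < s → s < τ k → B.c (p k s) ∈ T.erase i := by
    intro k s h3 h4
    have hadj := (hL.pth k).adj s (by have := hτν k; omega)
    rw [Finset.mem_erase]
    refine ⟨fun hc => ?_, hadj.1⟩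
    by_cases hJ : p k s ∈ J
    · exact (hmid k s h3 h4).1 (Finset.mem_filter.mpr ⟨Finset.mem_univ _, hc, hJ⟩)
    · exact (hmid k s h3 h4).2 (Finset.mem_filter.mpr ⟨Finset.mem_univ _, hc, hJ⟩)
  have hX : ∀ x y, (B.Gm T).Adj x y → B.c x ≠ B.c y → B.X x y := by
    intro x y h hc
    rcases h.2.2 with h | h | h
    · exact absurd h.1 hc
    · exact absurd h.1.symm hc
    · exact h
  refine ⟨fun k => p (f k) (σ (f k)), fun k => p (f k) (τ (f k)),
    fun k => (Finset.Ioo (σ (f k)) (τ (f k))).image (p (f k)), ?_, ?_, ?_⟩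
  · intro k hk
    exact ⟨(hσA' (f k)).1, (hτB' (f k)).1, (hσA' (f k)).2, (hτB' (f k)).2⟩
  · intro k hk l hl hkl
    have hne := hfinj k hk l hl hkl
    refine ⟨hL.dis _ _ hne _ (hσν _).le _ (hσν _).le, hL.dis _ _ hne _ (hτν _) _ (hτν _), ?_⟩
    rw [Finset.disjoint_left]
    intro x hx hx'
    rw [Finset.mem_image] at hx hx'
    obtain ⟨s, hs, rfl⟩ := hx
    obtain ⟨t, ht, he⟩ := hx'
    rw [Finset.mem_Ioo] at hs ht
    have h1 := hτν (f k)
    have h2 := hτν (f l)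
    exact hL.dis _ _ hne s (by omega) t (by omega) he.symm
  · intro k hk
    have hlk := hlong k hk
    have hτk := hτν (f k)
    refine ⟨?_, ?_, ?_, ?_⟩
    · intro x hx
      rw [Finset.mem_image] at hx
      obtain ⟨s, hs, rfl⟩ := hx
      rw [Finset.mem_Ioo] at hs
      exact hmidc (f k) s hs.1 hs.2
    · refine path_conn hlk fun s h1 h2 => ?_
      exact ⟨hmidc (f k) s h1 (by omega), hmidc (f k) (s + 1) (by omega) h2,
        ((hL.pth (f k)).adj s (by omega)).2.2⟩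
    · refine ⟨p (f k) (σ (f k) + 1), Finset.mem_image_of_mem _ (Finset.mem_Ioo.mpr ⟨by omega, hlk⟩), ?_⟩
      have hadj := (hL.pth (f k)).adj (σ (f k)) (by omega)
      refine hX _ _ hadj fun he => ?_
      have h1 := Finset.ne_of_mem_erase (hmidc (f k) (σ (f k) + 1) (by omega) hlk)
      exact h1 (he.symm.trans (hσA' (f k)).1)
    · refine ⟨p (f k) (τ (f k) - 1), Finset.mem_image_of_mem _
        (Finset.mem_Ioo.mpr ⟨by omega, by omega⟩), ?_⟩
      have hadj := (hL.pth (f k)).adj (τ (f k) - 1) (by omega)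
      rw [show τ (f k) - 1 + 1 = τ (f k) by omega] at hadj
      refine hX _ _ hadj fun he => ?_
      have h1 := Finset.ne_of_mem_erase (hmidc (f k) (τ (f k) - 1) (by omega) (by omega))
      exact h1 (he.trans (hτB' (f k)).1)

end Pool.Agent.MPd439b2.VX
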