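import Pool.Agent.Lib.MP_d439b2_co.VX.Carve
import Pool.Agent.Lib.MP_d439b2_co.VX.BadWL
import Pool.Agent.Lib.MP_d439b2_co.VX.Sys
import Pool.Agent.Lib.MP_d439b2_co.VX.Link
import Pool.Agent.Lib.MP_d439b2_co.VX.Trim
import Pool.Agent.Lib.MP_d439b2_co.VX.Cross
import Pool.Agent.Lib.MP_d439b2_co.VX.Reg
import Pool.Agent.Lib.MP_d439b2_co.VX.Clean
import Pool.Agent.Lib.MP_d439b2_co.VX.Runs
import Pool.Agent.Lib.MP_d439b2_co.VX.Reroute
import Pool.Agent.Lib.MP_d439b2_co.VX.TrackOf
import Pool.Agent.Lib.MP_d439b2_co.VX.Bun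
import Pool.Agent.Lib.MP_d439b2_co.GT.Men

/-!
# MP_d439b2_co, VX: the assembled statements (helper32)
-/

set_option autoImplicit false

namespace Pool.Agent.MPd439b2.VX

open Pool.Agent.MPd439b2

/-- A3, unconditional. -/
theorem pSys : S_Sys := sys carve badWL

/-- A4, unconditional. -/
theorem pLink : S_Link := link GT.pMen

/-- A12, unconditional. -/
theorem pBun : S_Bun := bun trim (reg cross) clean (reroute runs) trackOf

end Pool.Agent.MPd439b2.VX
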