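import Pool.Agent.Lib.MP_d439b2_co.VX.Sys
import Pool.Agent.Lib.MP_d439b2_co.VX.Final

/-!
# MP_d439b2_co, VX: change of the base (helper32)

Every chain of a minimal set of chains can be the base: it contains a large well linked set (with the factor `2`).
-/

set_option autoImplicit false

namespace Pool.Agent.MPd439b2.VX

open Pool.Agent.MPd439b2

/-- `S` is well linked in `E`, with the factor `2` -/
def WL2 {α : Type} [DecidableEq α] (E : Finset (α × α)) (S : Finset α) : Prop :=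
  ∀ Y ⊆ E, min (S ∩ vs Y).card (S ∩ vs (E \ Y)).card ≤ 2 * (vs Y ∩ vs (E \ Y)).card

/-- **A3'.** The system with an arbitrary base: either a branch decomposition of bounded width, or a set `T ≠ ∅` of chains
and a number `g` such that for EVERY chain `i` of `T` the other chains of `T` have a branch decomposition of width
`g`, and the chain `i` contains a set `S` with at least `f g` nodes which is well linked in the graph of `T`. -/
def S_Sys2 : Prop := ∀ (n : ℕ) (f : ℕ → ℕ), ∃ N : ℕ, ∀ (α : Type) [Fintype α] [DecidableEq α]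
  (B : BG α n), Carv (B.Ed Finset.univ) N (B.Ed Finset.univ) ∨
    ∃ (T : Finset (Fin n)) (g : ℕ), T.Nonempty ∧ 2 ≤ g ∧ g ≤ N ∧ ∀ i ∈ T,
      Carv (B.Ed (T.erase i)) g (B.Ed (T.erase i)) ∧
      ∃ S : Finset α, (∀ x ∈ S, B.c x = i) ∧ f g ≤ S.card ∧ WL2 (B.Ed T) S

/-- **A4'.** Disjoint paths from a part `J` of the chain `i` to the rest of the chain, for `WL2`. -/
def S_Link2 : Prop := ∀ (α : Type) [Fintype α] [DecidableEq α] (n : ℕ) (B : BG α n)
  (T : Finset (Fin n)) (i : Fin n) (S J : Finset α) (M : ℕ), i ∈ T → (∀ x ∈ S, B.c x = i) →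
  WL2 (B.Ed T) S → 2 * M ≤ (S ∩ J).card → 2 * M ≤ (S \ J).card →
  ∃ ν p, GT.Lkg (B.Gm T) (Finset.univ.filter fun x => B.c x = i ∧ x ∈ J)
    (Finset.univ.filter fun x => B.c x = i ∧ x ∉ J) M ν p

namespace Sys2Aux

variable {α : Type} [Fintype α] [DecidableEq α] {n : ℕ}

/-- the boundary of the pairs which meet `L` -/
theorem bd_of_cut {B : BG α n} {T : Finset (Fin n)} {L X : Finset α}
    (far : ∀ u, u ∈ L → ∀ v, (B.Gm T).Adj u v → v ∈ L ∪ X) :
    vs ((B.Ed T).filter fun p => p.1 ∈ L ∨ p.2 ∈ L) ∩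
      vs (B.Ed T \ (B.Ed T).filter fun p => p.1 ∈ L ∨ p.2 ∈ L) ⊆
      X ∩ vs ((B.Ed T).filter fun p => p.1 ∈ L ∨ p.2 ∈ L) := by
  intro x hx
  rw [Finset.mem_inter] at hx
  have hxY := hx.1
  rw [mem_vs, mem_vs] at hx
  have hxL : x ∉ L := by
    obtain ⟨y, hy | hy⟩ := hx.2
    · intro hxL
      exact (Finset.mem_sdiff.1 hy).2 (Finset.mem_filter.2
        ⟨(Finset.mem_sdiff.1 hy).1, Or.inl hxL⟩)
    · intro hxL
      exact (Finset.mem_sdiff.1 hy).2 (Finset.mem_filter.2
        ⟨(Finset.mem_sdiff.1 hy).1, Or.inr hxL⟩)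
  have key : ∀ y, y ∈ L → (x = y ∨ (B.Gm T).Adj y x) → x ∈ X := by
    intro y hy h2
    rcases h2 with h2 | h2
    · rw [← h2] at hy
      exact absurd hy hxL
    · rcases Finset.mem_union.1 (far y hy x h2) with h3 | h3
      · exact absurd h3 hxL
      · exact h3
  refine Finset.mem_inter.2 ⟨?_, hxY⟩
  obtain ⟨y, hy | hy⟩ := hx.1
  · have h2 := Finset.mem_filter.1 hy
    have h3 := (BG.mem_Ed.1 h2.1).2
    refine key y (h2.2.resolve_left hxL) ?_
    exact h3.imp id fun h => h.symm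
  · have h2 := Finset.mem_filter.1 hy
    have h3 := (BG.mem_Ed.1 h2.1).2
    refine key y (h2.2.resolve_right hxL) ?_
    exact h3.imp (fun h => h.symm) id

omit [Fintype α] in
/-- a part of a branch decomposition with between `t` and `2 t` elements of `W` -/
theorem part {E : Finset (α × α)} {g t : ℕ} {W : Finset α} (ht : 2 ≤ t) {A : Finset (α × α)}
    (h : Carv E g A) (hA : t < (W ∩ vs A).card) :
    ∃ F, Carv E g F ∧ t < (W ∩ vs F).card ∧ (W ∩ vs F).card ≤ 2 * t := by
  induction h with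
  | empty =>
    rw [vs_empty, Finset.inter_empty, Finset.card_empty] at hA
    omega
  | single e he =>
    have h1 : (W ∩ vs {e}).card ≤ 2 :=
      (Finset.card_le_card Finset.inter_subset_right).trans (card_vs_single e)
    omega
  | @union A B hA' hB' hd hw ihA ihB =>
    by_cases h1 : t < (W ∩ vs A).card
    · exact ihA h1
    by_cases h2 : t < (W ∩ vs B).card
    · exact ihB h2
    refine ⟨A ∪ B, Carv.union hA' hB' hd hw, hA, ?_⟩
    have h3 : W ∩ vs (A ∪ B) = (W ∩ vs A) ∪ (W ∩ vs B) := by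
      rw [vs_union, Finset.inter_union_distrib_left]
    rw [h3]
    refine (Finset.card_union_le _ _).trans ?_
    omega

/-- walking along a path outside the boundary -/
theorem stay {B : BG α n} {T : Finset (Fin n)} {Y : Finset (α × α)}
    {x y : α} (hadj : (B.Gm T).Adj x y) (hx : x ∈ vs Y) (hK : x ∉ vs Y ∩ vs (B.Ed T \ Y)) :
    y ∈ vs Y := by
  have h1 : x ∉ vs (B.Ed T \ Y) := fun h => hK (Finset.mem_inter.2 ⟨hx, h⟩)
  have h2 : (x, y) ∈ B.Ed T := BG.mem_Ed.2 ⟨hadj.1, Or.inr hadj⟩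
  by_cases h3 : (x, y) ∈ Y
  · exact mem_vs.2 ⟨x, Or.inr h3⟩
  · exact absurd (mem_vs.2 ⟨y, Or.inl (Finset.mem_sdiff.2 ⟨h2, h3⟩)⟩) h1

/-- the ends of disjoint paths from a well linked set -/
theorem ends {B : BG α n} {T : Finset (Fin n)} {S₀ Q : Finset α} (hWL : WL (B.Ed T) S₀)
    {m : ℕ} {ν : Fin m → ℕ} {p : Fin m → ℕ → α}
    (h : GT.Lkg (B.Gm T) S₀ Q m ν p) :
    WL2 (B.Ed T) (Finset.univ.image fun k => p k (ν k)) := by
  intro Y hY
  have key : ∀ Y' : Finset (α × α), Y' ⊆ B.Ed T →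
      ((Finset.univ.image fun k => p k (ν k)) ∩ vs Y').card ≤
        (S₀ ∩ vs Y').card + (vs Y' ∩ vs (B.Ed T \ Y')).card := by
    intro Y' hY'
    -- the paths
    have hinj : ∀ k l, p k (ν k) = p l (ν l) → k = l := by
      intro k l hkl
      by_contra hne
      exact h.dis k l hne _ le_rfl _ le_rfl hkl
    have hcon : ∀ k, (∀ s ≤ ν k, p k s ∉ vs Y' ∩ vs (B.Ed T \ Y')) → p k (ν k) ∈ vs Y' →
        p k 0 ∈ S₀ ∩ vs Y' := by
      intro k hk hv
      have h1 : ∀ s ≤ ν k, p k (ν k - s) ∈ vs Y' := by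
        intro s
        induction s with
        | zero => intro _; exact hv
        | succ s ih =>
          intro hs
          have h2 := ih (by omega)
          have h3 := (h.pth k).adj (ν k - (s + 1)) (by omega)
          rw [show ν k - (s + 1) + 1 = ν k - s from by omega] at h3
          exact stay h3.symm h2 (hk _ (by omega))
      have h4 := h1 (ν k) le_rfl
      rw [Nat.sub_self] at h4
      exact Finset.mem_inter.2 ⟨(h.pth k).head, h4⟩
    -- an injection
    classical
    have hch : ∀ k, p k (ν k) ∈ vs Y' → ∃ s ≤ ν k, p k s ∈ (S₀ ∩ vs Y') ∪ (vs Y' ∩ vs (B.Ed T \ Y')) := by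
      intro k hv
      by_cases hk : ∀ s ≤ ν k, p k s ∉ vs Y' ∩ vs (B.Ed T \ Y')
      · exact ⟨0, Nat.zero_le _, Finset.mem_union_left _ (hcon k hk hv)⟩
      · push Not at hk
        obtain ⟨s, hs, hs2⟩ := hk
        exact ⟨s, hs, Finset.mem_union_right _ hs2⟩
    have h5 : ((Finset.univ.filter fun k => p k (ν k) ∈ vs Y')).card ≤
        ((S₀ ∩ vs Y') ∪ (vs Y' ∩ vs (B.Ed T \ Y'))).card := by
      refine Finset.card_le_card_of_injOn
        (fun k => if hk : p k (ν k) ∈ vs Y' then p k (hch k hk).choose else p k 0) ?_ ?_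
      · intro k hk
        have hk' : p k (ν k) ∈ vs Y' := (Finset.mem_filter.1 hk).2
        simp only [hk', dif_pos]
        exact (hch k hk').choose_spec.2
      · intro k hk l hl hkl
        have hk' : p k (ν k) ∈ vs Y' := (Finset.mem_filter.1 hk).2
        have hl' : p l (ν l) ∈ vs Y' := (Finset.mem_filter.1 hl).2
        simp only [hk', hl', dif_pos] at hkl
        by_contra hne
        exact h.dis k l hne _ (hch k hk').choose_spec.1 _ (hch l hl').choose_spec.1 hkl
    have h6 : ((Finset.univ.image fun k => p k (ν k)) ∩ vs Y').card ≤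
        ((Finset.univ.filter fun k => p k (ν k) ∈ vs Y')).card := by
      have h7 : (Finset.univ.image fun k => p k (ν k)) ∩ vs Y' ⊆
          (Finset.univ.filter fun k => p k (ν k) ∈ vs Y').image fun k => p k (ν k) := by
        intro x hx
        rw [Finset.mem_inter, Finset.mem_image] at hx
        obtain ⟨⟨k, _, rfl⟩, hx2⟩ := hx
        exact Finset.mem_image.2 ⟨k, Finset.mem_filter.2 ⟨Finset.mem_univ _, hx2⟩, rfl⟩
      exact (Finset.card_le_card h7).trans Finset.card_image_le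
    exact h6.trans (h5.trans (Finset.card_union_le _ _))
  have k1 := key Y hY
  have k2 := key (B.Ed T \ Y) Finset.sdiff_subset
  have e1 : B.Ed T \ (B.Ed T \ Y) = Y := by
    ext q
    simp only [Finset.mem_sdiff, not_and, not_not]
    constructor
    · rintro ⟨h1, h2⟩
      exact h2 h1
    · intro h1
      exact ⟨hY h1, fun _ => h1⟩
  rw [e1, Finset.inter_comm (vs (B.Ed T \ Y)) (vs Y)] at k2
  have k3 := hWL Y hY
  rcases min_le_iff.1 k3 with h1 | h1
  · exact (min_le_left _ _).trans (by omega)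
  · exact (min_le_right _ _).trans (by omega)

end Sys2Aux

open Sys2Aux in
theorem link2 (h : GT.SMen) : S_Link2 := by
  intro α _ _ n B T i S J M hiT hS hWL hJ hJ'
  refine h α (B.Gm T) _ _ M fun L X hcut => ?_
  set E := B.Ed T with hE
  have hloop : ∀ x, B.c x = i → (x, x) ∈ E := fun x hx =>
    BG.mem_Ed.2 ⟨by rw [hx]; exact hiT, Or.inl rfl⟩
  have h1 := bd_of_cut hcut.far
  rw [← hE] at h1
  set Y := E.filter (fun p => p.1 ∈ L ∨ p.2 ∈ L) with hY
  have hYE : Y ⊆ E := Finset.filter_subset _ _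
  have h2 : S \ J ⊆ S ∩ vs (E \ Y) := by
    intro x hx
    rw [Finset.mem_sdiff] at hx
    refine Finset.mem_inter.2 ⟨hx.1, ?_⟩
    have hxL : x ∉ L := by
      refine Finset.disjoint_left.1 hcut.last ?_
      exact Finset.mem_filter.2 ⟨Finset.mem_univ _, hS x hx.1, hx.2⟩
    refine mem_vs.2 ⟨x, Or.inl (Finset.mem_sdiff.2 ⟨hloop x (hS x hx.1), fun h3 => ?_⟩)⟩
    rcases (Finset.mem_filter.1 h3).2 with h4 | h4
    · exact hxL h4
    · exact hxL h4
  have h3 : S ∩ J ⊆ (S ∩ vs Y) ∪ (X \ vs Y) := by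
    intro x hx
    rw [Finset.mem_inter] at hx
    rw [Finset.mem_union, Finset.mem_inter, Finset.mem_sdiff]
    by_cases hxY : x ∈ vs Y
    · exact Or.inl ⟨hx.1, hxY⟩
    · have h4 : x ∈ L ∪ X := hcut.head
        (Finset.mem_filter.2 ⟨Finset.mem_univ _, hS x hx.1, hx.2⟩)
      rcases Finset.mem_union.1 h4 with h5 | h5
      · refine absurd (mem_vs.2 ⟨x, Or.inl ?_⟩) hxY
        exact Finset.mem_filter.2 ⟨hloop x (hS x hx.1), Or.inl h5⟩
      · exact Or.inr ⟨h5, hxY⟩
  have c1 := Finset.card_le_card h1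
  have c2 := Finset.card_le_card h2
  have c3 := (Finset.card_le_card h3).trans (Finset.card_union_le _ _)
  have c4 := hWL Y hYE
  have c5 : (X ∩ vs Y).card + (X \ vs Y).card = X.card := Finset.card_inter_add_card_sdiff X (vs Y)
  rcases min_le_iff.1 c4 with c6 | c6 <;> omega

namespace Sys2Aux

/-- the thresholds -/
def Nf (f : ℕ → ℕ) : ℕ → ℕ
  | 0 => 2
  | j + 1 => max (Nf f j) (4 * (Nf f j + f (Nf f j)) + 2)

theorem Nf_mono (f : ℕ → ℕ) : Monotone (Nf f) :=
  monotone_nat_of_le_succ fun _ => le_max_left _ _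

theorem Nf_two (f : ℕ → ℕ) (j : ℕ) : 2 ≤ Nf f j := Nf_mono f (Nat.zero_le j)

end Sys2Aux

open Sys2Aux in
theorem sys2 (h1 : S_Carve) (h2 : S_BadWL) (hm : GT.SMen) : S_Sys2 := by
  classical
  intro n f
  refine ⟨Nf f n, ?_⟩
  intro α _ inst B
  have hinst : inst = Classical.decEq α := Subsingleton.elim _ _
  subst hinst
  by_cases hu : Carv (B.Ed Finset.univ) (Nf f n) (B.Ed Finset.univ)
  · exact Or.inl hu
  right
  have hex : ∃ m, ∃ T : Finset (Fin n), T.card = m ∧ ¬ Carv (B.Ed T) (Nf f T.card) (B.Ed T) :=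
    ⟨n, Finset.univ, by simp, by simpa using hu⟩
  obtain ⟨T, hTm, hT⟩ := Nat.find_spec hex
  have hmin : ∀ T' : Finset (Fin n), T'.card < T.card →
      Carv (B.Ed T') (Nf f T'.card) (B.Ed T') := by
    intro T' hT'
    by_contra hcon
    have h3 := Nat.find_min' hex ⟨T', rfl, hcon⟩
    omega
  have hTne : T.Nonempty := by
    rw [Finset.nonempty_iff_ne_empty]
    rintro rfl
    apply hT
    have h3 : B.Ed ∅ = ∅ := by
      rw [Finset.eq_empty_iff_forall_notMem]
      intro p hp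
      exact absurd (BG.mem_Ed.1 hp).1 (Finset.notMem_empty _)
    rw [h3]
    exact Carv.empty
  obtain ⟨j, hj⟩ : ∃ j, T.card = j + 1 := ⟨T.card - 1, by
    have := Finset.card_pos.2 hTne
    omega⟩
  rw [hj] at hT
  obtain ⟨Z, hZ⟩ := (h1 α (B.Ed T) (Nf f (j + 1)) (Nf_two f _)).resolve_left hT
  have hWL := h2 α (B.Ed T) Z (Nf f (j + 1)) hZ
  set S₀ := bd (B.Ed T) Z with hS₀
  have hc : ∀ x ∈ S₀, B.c x ∈ T := by
    intro x hx
    rw [hS₀, bd, Finset.mem_inter] at hx
    exact SysAux.c_mem hZ.1 hx.1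
  have hcard : 4 * (Nf f j + f (Nf f j)) + 1 ≤ S₀.card := by
    have h3 : Nf f (j + 1) ≤ S₀.card + 1 := hZ.2.1
    have h4 : 4 * (Nf f j + f (Nf f j)) + 2 ≤ Nf f (j + 1) := le_max_right _ _
    omega
  have hTn : T.card ≤ n := by
    have := Finset.card_le_univ T
    rwa [Fintype.card_fin] at this
  have hg2 := Nf_two f j
  refine ⟨T, Nf f j, hTne, hg2, Nf_mono f (by omega), ?_⟩
  intro i hi
  have herase : (T.erase i).card = j := by
    rw [Finset.card_erase_of_mem hi, hj, Nat.add_sub_cancel]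
  have hCv : Carv (B.Ed (T.erase i)) (Nf f j) (B.Ed (T.erase i)) := by
    have h3 := hmin (T.erase i) (by omega)
    rwa [herase] at h3
  refine ⟨hCv, ?_⟩
  -- many disjoint paths from the well linked set to the chain `i`
  have hlk : ∃ ν p, GT.Lkg (B.Gm T) S₀ (Finset.univ.filter fun x => B.c x = i) (f (Nf f j)) ν p := by
    refine hm α (B.Gm T) S₀ _ (f (Nf f j)) fun L X hcut => ?_
    by_contra hX
    rw [not_le] at hX
    -- the elements of `S₀` behind the cut
    have hW : S₀.card ≤ (S₀ ∩ L).card + X.card := by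
      have h3 : S₀ ⊆ (S₀ ∩ L) ∪ X := by
        intro x hx
        rcases Finset.mem_union.1 (hcut.head hx) with h4 | h4
        · exact Finset.mem_union_left _ (Finset.mem_inter.2 ⟨hx, h4⟩)
        · exact Finset.mem_union_right _ h4
      exact (Finset.card_le_card h3).trans (Finset.card_union_le _ _)
    have hLi : ∀ x ∈ L, B.c x ≠ i := by
      intro x hx hxi
      exact Finset.disjoint_left.1 hcut.last
        (Finset.mem_filter.2 ⟨Finset.mem_univ _, hxi⟩) hx
    have hWv : S₀ ∩ L ⊆ vs (B.Ed (T.erase i)) := by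
      intro x hx
      rw [Finset.mem_inter] at hx
      exact mem_vs.2 ⟨x, Or.inl (BG.mem_Ed.2
        ⟨Finset.mem_erase.2 ⟨hLi x hx.2, hc x hx.1⟩, Or.inl rfl⟩)⟩
    obtain ⟨F, hF, hF1, hF2⟩ := part (W := S₀ ∩ L) (t := Nf f j + f (Nf f j)) (by omega) hCv (by
      rw [Finset.inter_eq_left.2 hWv]
      omega)
    have hFb := RegAux.carv_bd hg2 hF
    have hFE := RegAux.carv_sub hF
    -- the separation
    set P : Finset α := (vs F ∩ L) ∪ X with hP
    set Y : Finset (α × α) := (B.Ed T).filter fun q => q.1 ∈ P ∧ q.2 ∈ P with hY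
    have hYE : Y ⊆ B.Ed T := Finset.filter_subset _ _
    have hvY : vs Y ⊆ P := by
      intro x hx
      rw [mem_vs] at hx
      obtain ⟨y, hy | hy⟩ := hx
      · exact (Finset.mem_filter.1 hy).2.1
      · exact (Finset.mem_filter.1 hy).2.2
    have hnb : ∀ x, x ∈ vs F → x ∈ L → x ∉ bd (B.Ed (T.erase i)) F → ∀ y, (B.Gm T).Adj x y →
        y ∈ P := by
      intro x hxF hxL hxb y hxy
      rcases Finset.mem_union.1 (hcut.far x hxL y hxy) with h4 | h4
      · refine Finset.mem_union_left _ (Finset.mem_inter.2 ⟨?_, h4⟩)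
        have h5 : (x, y) ∈ B.Ed (T.erase i) := by
          refine BG.mem_Ed.2 ⟨Finset.mem_erase.2 ⟨hLi x hxL, hxy.1⟩, Or.inr ?_⟩
          exact ⟨Finset.mem_erase.2 ⟨hLi x hxL, hxy.1⟩, Finset.mem_erase.2 ⟨hLi y h4, hxy.2.1⟩,
            hxy.2.2⟩
        by_cases h6 : (x, y) ∈ F
        · exact mem_vs.2 ⟨x, Or.inr h6⟩
        · exfalso
          apply hxb
          exact Finset.mem_inter.2 ⟨hxF, mem_vs.2 ⟨y, Or.inl (Finset.mem_sdiff.2 ⟨h5, h6⟩)⟩⟩
      · exact Finset.mem_union_right _ h4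
    have hK : vs Y ∩ vs (B.Ed T \ Y) ⊆ bd (B.Ed (T.erase i)) F ∪ X := by
      intro x hx
      rw [Finset.mem_inter] at hx
      have hxP := hvY hx.1
      rw [Finset.mem_union]
      by_contra hcon
      push Not at hcon
      rcases Finset.mem_union.1 hxP with h4 | h4
      · rw [Finset.mem_inter] at h4
        have h5 := hnb x h4.1 h4.2 hcon.1
        obtain ⟨y, hy | hy⟩ := mem_vs.1 hx.2
        · rw [Finset.mem_sdiff] at hy
          apply hy.2
          refine Finset.mem_filter.2 ⟨hy.1, hxP, ?_⟩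
          rcases (BG.mem_Ed.1 hy.1).2 with h6 | h6
          · have h7 : x = y := h6
            rw [← h7]
            exact hxP
          · exact h5 y h6
        · rw [Finset.mem_sdiff] at hy
          apply hy.2
          refine Finset.mem_filter.2 ⟨hy.1, ?_, hxP⟩
          rcases (BG.mem_Ed.1 hy.1).2 with h6 | h6
          · have h7 : y = x := h6
            show y ∈ P
            rw [h7]
            exact hxP
          · exact h5 y h6.symm
      · exact hcon.2 h4
    have c1 := Finset.card_le_card hK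
    have c2 := Finset.card_union_le (bd (B.Ed (T.erase i)) F) X
    have c3 := hWL Y hYE
    -- both sides are large
    have c4 : (S₀ ∩ L ∩ vs F).card ≤ (S₀ ∩ vs Y).card := by
      refine Finset.card_le_card ?_
      intro x hx
      rw [Finset.mem_inter, Finset.mem_inter] at hx
      have h4 : x ∈ P := Finset.mem_union_left _ (Finset.mem_inter.2 ⟨hx.2, hx.1.2⟩)
      refine Finset.mem_inter.2 ⟨hx.1.1, mem_vs.2 ⟨x, Or.inl ?_⟩⟩
      exact Finset.mem_filter.2 ⟨BG.mem_Ed.2 ⟨hc x hx.1.1, Or.inl rfl⟩, h4, h4⟩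
    have c5 : ((S₀ ∩ L) \ vs F).card ≤ (S₀ ∩ vs (B.Ed T \ Y)).card := by
      refine Finset.card_le_card ?_
      intro x hx
      rw [Finset.mem_sdiff, Finset.mem_inter] at hx
      refine Finset.mem_inter.2 ⟨hx.1.1, mem_vs.2 ⟨x, Or.inl (Finset.mem_sdiff.2
        ⟨BG.mem_Ed.2 ⟨hc x hx.1.1, Or.inl rfl⟩, fun h4 => ?_⟩)⟩⟩
      have h5 : x ∈ P := (Finset.mem_filter.1 h4).2.1
      rcases Finset.mem_union.1 h5 with h6 | h6
      · exact hx.2 (Finset.mem_inter.1 h6).1
      · exact Finset.disjoint_left.1 hcut.dis hx.1.2 h6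
    have c6 : (S₀ ∩ L ∩ vs F).card + ((S₀ ∩ L) \ vs F).card = (S₀ ∩ L).card :=
      Finset.card_inter_add_card_sdiff _ _
    rcases min_le_iff.1 c3 with h4 | h4 <;> omega
  obtain ⟨ν, p, hlk⟩ := hlk
  refine ⟨Finset.univ.image fun k => p k (ν k), ?_, ?_, ?_⟩
  · intro x hx
    obtain ⟨k, _, rfl⟩ := Finset.mem_image.1 hx
    exact (Finset.mem_filter.1 (hlk.pth k).last).2
  · rw [Finset.card_image_of_injective, Finset.card_univ, Fintype.card_fin]
    intro k l hkl
    by_contra hne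
    exact hlk.dis k l hne _ le_rfl _ le_rfl hkl
  · exact ends hWL hlk

/-- A3', unconditional. -/
theorem pSys2 : S_Sys2 := sys2 carve badWL GT.pMen

/-- A4', unconditional. -/
theorem pLink2 : S_Link2 := link2 GT.pMen

end Pool.Agent.MPd439b2.VX
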