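import Pool.Agent.Lib.MP_d439b2_co.W.Defs
import Pool.Agent.Lib.MP_d439b2_co.GT.Men

/-!
# MP_d439b2_co, VX: vertex version of the bundle tools, definitions (helper32)

A graph is a finite set `E` of ordered pairs of nodes, which contains the loop `(x, x)` of every node.  The boundary of
`F ⊆ E` is the set of the nodes which are in pairs of `F` and in pairs of `E \ F`.  The block graphs have `n` chains
and arbitrary cross edges `X` between different chains, of arbitrary degree.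
-/

set_option autoImplicit false

namespace Pool.Agent.MPd439b2.VX

open Pool.Agent.MPd439b2

section pairs

variable {α : Type} [DecidableEq α]

/-- the nodes of the pairs of `F` -/
def vs (F : Finset (α × α)) : Finset α := F.image Prod.fst ∪ F.image Prod.snd

/-- the boundary nodes of `F` in `E` -/
def bd (E F : Finset (α × α)) : Finset α := vs F ∩ vs (E \ F)

/-- **Branch decompositions**: the set `A` of pairs has a rooted binary tree whose leaves are its pairs, such that for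
every node of the tree the set of the pairs below it has at most `N` boundary nodes -/
inductive Carv (E : Finset (α × α)) (N : ℕ) : Finset (α × α) → Prop
  | empty : Carv E N ∅
  | single (e : α × α) : e ∈ E → Carv E N {e}
  | union {A B : Finset (α × α)} : Carv E N A → Carv E N B → Disjoint A B →
      (bd E (A ∪ B)).card ≤ N → Carv E N (A ∪ B)

/-- the obstruction to `Carv E N E` -/
def Bad (E : Finset (α × α)) (N : ℕ) (Z : Finset (α × α)) : Prop :=
  Z ⊆ E ∧ N ≤ (bd E Z).card + 1 ∧ (bd E Z).card ≤ N ∧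
    ∀ Y ⊆ Z, (bd E Z).card ≤ (bd E Y).card ∨ (bd E Z).card ≤ (bd E (Z \ Y)).card

/-- `S` is well linked in `E` -/
def WL (E : Finset (α × α)) (S : Finset α) : Prop :=
  ∀ Y ⊆ E, min (S ∩ vs Y).card (S ∩ vs (E \ Y)).card ≤ (vs Y ∩ vs (E \ Y)).card

theorem mem_vs {F : Finset (α × α)} {x : α} : x ∈ vs F ↔ ∃ y, (x, y) ∈ F ∨ (y, x) ∈ F := by
  unfold vs
  rw [Finset.mem_union, Finset.mem_image, Finset.mem_image]
  constructor
  · rintro (⟨p, hp, rfl⟩ | ⟨p, hp, rfl⟩)
    · exact ⟨p.2, Or.inl hp⟩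
    · exact ⟨p.1, Or.inr hp⟩
  · rintro ⟨y, h | h⟩
    · exact Or.inl ⟨_, h, rfl⟩
    · exact Or.inr ⟨_, h, rfl⟩

theorem vs_mono {F F' : Finset (α × α)} (h : F ⊆ F') : vs F ⊆ vs F' := by
  intro x hx
  rw [mem_vs] at *
  obtain ⟨y, hy⟩ := hx
  exact ⟨y, hy.imp (fun h' => h h') (fun h' => h h')⟩

theorem vs_union (F F' : Finset (α × α)) : vs (F ∪ F') = vs F ∪ vs F' := by
  ext x
  simp only [mem_vs, Finset.mem_union]
  constructor
  · rintro ⟨y, (h | h) | (h | h)⟩
    · exact Or.inl ⟨y, Or.inl h⟩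
    · exact Or.inr ⟨y, Or.inl h⟩
    · exact Or.inl ⟨y, Or.inr h⟩
    · exact Or.inr ⟨y, Or.inr h⟩
  · rintro (⟨y, h | h⟩ | ⟨y, h | h⟩)
    · exact ⟨y, Or.inl (Or.inl h)⟩
    · exact ⟨y, Or.inr (Or.inl h)⟩
    · exact ⟨y, Or.inl (Or.inr h)⟩
    · exact ⟨y, Or.inr (Or.inr h)⟩

theorem vs_empty : vs (∅ : Finset (α × α)) = ∅ := by
  unfold vs
  simp

theorem card_vs_single (e : α × α) : (vs {e}).card ≤ 2 := by
  unfold vs
  refine (Finset.card_union_le _ _).trans ?_
  simp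

end pairs

/-! ### block graphs -/

/-- **Block graphs**: nodes with `n` chains (`c`), a linear order of every chain (`ρ`), and arbitrary cross edges `X`
between different chains -/
structure BG (α : Type) (n : ℕ) where
  c : α → Fin n
  ρ : α → ℕ
  X : α → α → Prop
  inj : ∀ x y, c x = c y → ρ x = ρ y → x = y
  sym : ∀ x y, X x y → X y x
  ne : ∀ x y, X x y → c x ≠ c y

section bg

variable {α : Type} {n : ℕ}

/-- `x` and `y` are consecutive elements of one chain -/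
def BG.Con (B : BG α n) (x y : α) : Prop :=
  B.c x = B.c y ∧ B.ρ x < B.ρ y ∧ ∀ z, B.c z = B.c x → B.ρ x < B.ρ z → B.ρ y ≤ B.ρ z

/-- the graph of the chains in `T` -/
def BG.Gm (B : BG α n) (T : Finset (Fin n)) : SimpleGraph α where
  Adj x y := B.c x ∈ T ∧ B.c y ∈ T ∧ (B.Con x y ∨ B.Con y x ∨ B.X x y)
  symm := ⟨fun x y h => by
    obtain ⟨h1, h2, h3⟩ := h
    refine ⟨h2, h1, ?_⟩
    rcases h3 with h3 | h3 | h3
    · exact Or.inr (Or.inl h3)
    · exact Or.inl h3
    · exact Or.inr (Or.inr (B.sym _ _ h3))⟩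
  loopless := ⟨fun x h => by
    rcases h.2.2 with h3 | h3 | h3
    · exact lt_irrefl _ h3.2.1
    · exact lt_irrefl _ h3.2.1
    · exact B.ne _ _ h3 rfl⟩

/-- the pairs of the graph of the chains in `T`, with the loops -/
noncomputable def BG.Ed [Fintype α] (B : BG α n) (T : Finset (Fin n)) : Finset (α × α) :=
  (Set.toFinite {p : α × α | B.c p.1 ∈ T ∧ (p.1 = p.2 ∨ (B.Gm T).Adj p.1 p.2)}).toFinset

theorem BG.mem_Ed [Fintype α] {B : BG α n} {T : Finset (Fin n)} {p : α × α} :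
    p ∈ B.Ed T ↔ B.c p.1 ∈ T ∧ (p.1 = p.2 ∨ (B.Gm T).Adj p.1 p.2) := by
  unfold BG.Ed
  rw [Set.Finite.mem_toFinset]
  rfl

/-- `a` and `b` are in the same run of `P`: in one chain, and all elements of this chain between them (and `a`, `b`)
are in `P` -/
def BG.Run (B : BG α n) (P : Finset α) (a b : α) : Prop :=
  a ∈ P ∧ b ∈ P ∧ B.c a = B.c b ∧
    ∀ z, B.c z = B.c a → (B.ρ a ≤ B.ρ z ∧ B.ρ z ≤ B.ρ b ∨ B.ρ b ≤ B.ρ z ∧ B.ρ z ≤ B.ρ a) → z ∈ P

/-- `J` is an interval of its chain -/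
def BG.Int (B : BG α n) (J : Finset α) : Prop :=
  ∀ x ∈ J, ∀ z ∈ J, ∀ y, B.c y = B.c x → B.ρ x ≤ B.ρ y → B.ρ y ≤ B.ρ z → y ∈ J

/-- **`M` tracks with `r` steps**: the track `k` enters the rail `j` (in the chain `χ j`) at `A k j` and leaves it at
`B k j`; different tracks are separated in every rail; only the rails `0` and `r` are in the chain `i`; they
consist of single nodes -/
structure VTr (G : BG α n) (i : Fin n) (M r : ℕ) (A B : ℕ → ℕ → α) (χ : ℕ → Fin n) : Prop where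
  two : 2 ≤ r
  cA : ∀ k < M, ∀ j ≤ r, G.c (A k j) = χ j
  cB : ∀ k < M, ∀ j ≤ r, G.c (B k j) = χ j
  sep : ∀ k < M, ∀ k' < M, k ≠ k' → ∀ j ≤ r,
    (G.ρ (A k j) < G.ρ (A k' j) ∧ G.ρ (A k j) < G.ρ (B k' j) ∧ G.ρ (B k j) < G.ρ (A k' j) ∧
      G.ρ (B k j) < G.ρ (B k' j)) ∨
    (G.ρ (A k' j) < G.ρ (A k j) ∧ G.ρ (A k' j) < G.ρ (B k j) ∧ G.ρ (B k' j) < G.ρ (A k j) ∧
      G.ρ (B k' j) < G.ρ (B k j))
  stp : ∀ k < M, ∀ j < r, G.X (B k j) (A k (j + 1))
  fst : ∀ k < M, A k 0 = B k 0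
  lst : ∀ k < M, A k r = B k r
  ch0 : χ 0 = i
  chr : χ r = i
  inn : ∀ j, 0 < j → j < r → χ j ≠ i

end bg

end Pool.Agent.MPd439b2.VX
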