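import Pool.Agent.Lib.MP_d439b2_co.VX.Spec

/-!
# MP_d439b2_co, VX, A12: bundles from an interval of a chain to the rest of the chain
-/

set_option autoImplicit false

namespace Pool.Agent.MPd439b2.VX

open Pool.Agent.MPd439b2

theorem bun (h5 : S_Trim) (h7 : S_Reg) (h8 : S_Clean) (h10 : S_Reroute) (h11 : S_TrackOf) :
    S_Bun := by
  intro n g m
  obtain ⟨M, hM⟩ := h11 n (4 * g) m
  refine ⟨4 * g * M + 2, ?_⟩
  intro α _ _ G T i J ν p hg hcarv hint hlkg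
  obtain ⟨a, b, Q, q1, q2, q3⟩ := h5 α n G T i J (4 * g * M) ν p hint hlkg
  obtain ⟨jj, R, r1, r2⟩ := h7 α n G (T.erase i) g M (4 * g * M) Q hg hcarv
    (fun k hk => ⟨(q3 k hk).2.1, (q3 k hk).1⟩) (fun k hk l hl hkl => (q2 k hk l hl hkl).2.2) le_rfl
  obtain ⟨P, p1, p2⟩ := h8 α n G (T.erase i) g M (fun k => Q (jj k)) R
    (fun k hk => ⟨(q3 (jj k) (r1 k hk).1).1, (r1 k hk).2.1, (r1 k hk).2.2.1, (r1 k hk).2.2.2⟩)
    (fun k hk l hl hkl => ⟨(q2 (jj k) (r1 k hk).1 (jj l) (r1 l hl).1 (r2 k hk l hl hkl).1).2.2,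
      (r2 k hk l hl hkl).2⟩)
  have hit : ∀ k, ∃ (s : ℕ) (A B : ℕ → α), k < M → 1 ≤ s ∧ s ≤ n + 4 * g ∧
      G.X (a (jj k)) (A 0) ∧ G.X (B (s - 1)) (b (jj k)) ∧
      (∀ j < s, G.Run (P k) (A j) (B j)) ∧ ∀ j, j + 1 < s → G.X (B j) (A (j + 1)) := by
    intro k
    by_cases hk : k < M
    · obtain ⟨hT, hC, ⟨x, hx, hxe⟩, y, hy, hye⟩ := q3 (jj k) (r1 k hk).1
      obtain ⟨s, A, B, s1, s2, s3, s4, s5, s6⟩ := h10 α n G (T.erase i) (P k) (Q (jj k)) (4 * g) x y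
        (p1 k hk).2.2 (p1 k hk).1 hC hx hy
      refine ⟨s, A, B, fun _ => ⟨s1, s2, ?_, ?_, s5, s6⟩⟩
      · rw [s3]
        exact hxe
      · rw [s4]
        exact hye
    · exact ⟨0, a, a, fun h => absurd h hk⟩
  choose s A B hs using hit
  obtain ⟨r, κ, A', B', χ, t1, t2, t3, t4⟩ := hM α G T i (fun k => a (jj k)) (fun k => b (jj k))
    P s A B
    (fun k hk => by
      obtain ⟨u1, u2, u3, u4⟩ := q1 (jj k) (r1 k hk).1
      exact ⟨u1, u2, fun h => u4 (h ▸ u3)⟩)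
    (fun k hk l hl hkl => by
      obtain ⟨w1, w2, _⟩ := q2 (jj k) (r1 k hk).1 (jj l) (r1 l hl).1 (r2 k hk l hl hkl).1
      exact ⟨w1, w2, p2 k hk l hl hkl⟩)
    (fun k hk => (p1 k hk).2.1) hs
  refine ⟨r, A', B', χ, t1, t4, ?_, ?_⟩
  · intro k hk
    obtain ⟨u1, u2, u3⟩ := t2 k hk
    obtain ⟨_, _, u4, u5⟩ := q1 (jj (κ k)) (r1 (κ k) u1).1
    rw [u2, u3]
    exact ⟨u4, u5⟩
  · rcases t3 with h | h
    · left
      intro k hk x hx hxc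
      obtain ⟨u1, u2, u3⟩ := t2 k hk
      obtain ⟨v1, v2, u4, u5⟩ := q1 (jj (κ k)) (r1 (κ k) u1).1
      rw [u3]
      by_contra hcon
      push Not at hcon
      have h6 := hint (a (jj (κ k))) (Finset.mem_filter.2 ⟨u4, v1⟩) x
        (Finset.mem_filter.2 ⟨hx, hxc⟩) (b (jj (κ k))) (v2.trans v1.symm) (h k hk).le hcon
      exact u5 (Finset.mem_filter.1 h6).1
    · right
      intro k hk x hx hxc
      obtain ⟨u1, u2, u3⟩ := t2 k hk
      obtain ⟨v1, v2, u4, u5⟩ := q1 (jj (κ k)) (r1 (κ k) u1).1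
      rw [u3]
      by_contra hcon
      push Not at hcon
      have h6 := hint x (Finset.mem_filter.2 ⟨hx, hxc⟩) (a (jj (κ k)))
        (Finset.mem_filter.2 ⟨u4, v1⟩) (b (jj (κ k))) (v2.trans hxc.symm) hcon (h k hk).le
      exact u5 (Finset.mem_filter.1 h6).1

end Pool.Agent.MPd439b2.VX
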