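import Pool.Agent.Lib.MP_d439b2_co.VX.Spec

/-!
# MP_d439b2_co, VX/Carve: the carving lemma for branch decompositions
-/

set_option autoImplicit false

namespace Pool.Agent.MPd439b2.VX

open Pool.Agent.MPd439b2

/-- **A1.** -/
theorem carve : S_Carve := by
  intro α _ E N hN
  by_contra hcon
  push Not at hcon
  obtain ⟨hcar, hbad⟩ := hcon
  have claim : ∀ n, ∀ Z : Finset (α × α), Z.card = n → Z ⊆ E → (bd E Z).card ≤ N →
      Carv E N Z := by
    intro n
    induction n using Nat.strong_induction_on with
    | _ n ih =>
    intro Z hZ hZE hw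
    rcases Z.eq_empty_or_nonempty with rfl | ⟨e, he⟩
    · exact Carv.empty
    by_cases h2 : (bd E Z).card + 2 ≤ N
    · have e1 : Z.erase e ∪ {e} = Z := by
        rw [Finset.union_comm, ← Finset.insert_eq, Finset.insert_erase he]
      have hd : Disjoint (Z.erase e) ({e} : Finset (α × α)) := by simp
      have hsub : bd E (Z.erase e) ⊆ bd E Z ∪ vs {e} := by
        intro x hx
        unfold bd at hx ⊢
        rw [Finset.mem_inter] at hx
        rw [Finset.mem_union, Finset.mem_inter]
        have h3 : x ∈ vs Z := vs_mono (Finset.erase_subset e Z) hx.1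
        have h4 : x ∈ vs ((E \ Z) ∪ {e}) := by
          refine vs_mono ?_ hx.2
          intro p hp
          rw [Finset.mem_sdiff, Finset.mem_erase] at hp
          rw [Finset.mem_union, Finset.mem_sdiff, Finset.mem_singleton]
          tauto
        rw [vs_union, Finset.mem_union] at h4
        rcases h4 with h4 | h4
        · exact Or.inl ⟨h3, h4⟩
        · exact Or.inr h4
      have hYw : (bd E (Z.erase e)).card ≤ N := by
        have h3 := Finset.card_le_card hsub
        have h4 := Finset.card_union_le (bd E Z) (vs {e})
        have h5 := card_vs_single e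
        omega
      have hc1 := ih _ (hZ ▸ Finset.card_erase_lt_of_mem he) _ rfl
        ((Finset.erase_subset e Z).trans hZE) hYw
      have hc2 : Carv E N {e} := Carv.single e (hZE he)
      have hc3 := Carv.union hc1 hc2 hd (by rw [e1]; exact hw)
      rw [e1] at hc3
      exact hc3
    · push Not at h2
      have h3 := hbad Z
      unfold Bad at h3
      push Not at h3
      obtain ⟨Y, hYZ, hY1, hY2⟩ := h3 hZE (by omega) hw
      have hYne : Y ≠ ∅ := by
        rintro rfl
        rw [Finset.sdiff_empty] at hY2
        exact lt_irrefl _ hY2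
      have hYne' : Z \ Y ≠ ∅ := by
        intro h
        have : Y = Z := Finset.Subset.antisymm hYZ (Finset.sdiff_eq_empty_iff_subset.1 h)
        rw [this] at hY1
        exact lt_irrefl _ hY1
      have hd : Disjoint Y (Z \ Y) := Finset.disjoint_sdiff
      have e1 : Y ∪ (Z \ Y) = Z := Finset.union_sdiff_of_subset hYZ
      have hcY : Y.card < Z.card := by
        apply Finset.card_lt_card
        exact ⟨hYZ, fun h => hYne' (Finset.sdiff_eq_empty_iff_subset.2 h)⟩
      have hcY' : (Z \ Y).card < Z.card := by
        have h4 := Finset.card_sdiff_add_card_eq_card hYZ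
        have h5 := Finset.card_pos.2 (Finset.nonempty_iff_ne_empty.2 hYne)
        omega
      have hc1 := ih _ (hZ ▸ hcY) _ rfl (hYZ.trans hZE) (by omega)
      have hc2 := ih _ (hZ ▸ hcY') _ rfl (Finset.sdiff_subset.trans hZE) (by omega)
      have hc3 := Carv.union hc1 hc2 hd (by rw [e1]; exact hw)
      rw [e1] at hc3
      exact hc3
  apply hcar
  refine claim _ _ rfl (Finset.Subset.refl _) ?_
  unfold bd
  rw [Finset.sdiff_self, vs_empty, Finset.inter_empty, Finset.card_empty]
  exact Nat.zero_le _

end Pool.Agent.MPd439b2.VX
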