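import Pool.Agent.Lib.MP_d439b2_co.VX.Defs

/-!
# MP_d439b2_co, VX, Spec: vertex version of the bundle tools (helper32)

Every `S_...` is a statement to be proved in its own file `VX/<Name>.lean`; the docstring contains the complete
proof.  Definitions and small lemmas: `VX/Defs.lean`.
-/

set_option autoImplicit false

namespace Pool.Agent.MPd439b2.VX

open Pool.Agent.MPd439b2

/-- **A1.** The carving lemma.

Proof. Copy `W/Carve.lean`.  Suppose that no `Z` is `Bad`.  CLAIM: every `Z ⊆ E` with `|bd E Z| ≤ N` satisfies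
`Carv E N Z`; apply it to `E` (`bd E E = ∅`, as `E \ E = ∅`).  Strong induction on `Z.card`.  `Z = ∅`: `empty`;
`Z = {e}`: `single`.  Let `2 ≤ Z.card`.
(1) `|bd E Z| + 2 ≤ N`: take `e ∈ Z`, `Y = Z.erase e`.  `bd E Y ⊆ bd E Z ∪ vs {e}` (`E \ Y = (E \ Z) ∪ {e}`,
`vs Y ⊆ vs Z`), so `|bd E Y| ≤ N`.  `Carv.union` for `Y` and `{e}`.
(2) `N ≤ |bd E Z| + 1`: as `Z` is not `Bad` there is `Y ⊆ Z` with `|bd E Y| < |bd E Z|` and
`|bd E (Z \ Y)| < |bd E Z|`.  `Y` and `Z \ Y` are not empty (otherwise `Z \ Y = Z` or `Y = Z`).  Both are smaller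
than `Z`: induction and `Carv.union`. -/
def S_Carve : Prop := ∀ (α : Type) [DecidableEq α] (E : Finset (α × α)) (N : ℕ), 2 ≤ N →
  Carv E N E ∨ ∃ Z, Bad E N Z

/-- **A2.** The boundary of a bad set is well linked.

Proof. Let `Y ⊆ E`, `K = vs Y ∩ vs (E \ Y)`, `Y₀ = Y ∩ Z`, `Y₁ = Z \ Y`, so `Z = Y₀ ∪ Y₁`, `Z \ Y₀ = Y₁`,
`K₀ = vs Y₀ ∩ vs Y₁ ⊆ K`.  Let `S = bd E Z`.
(1) `min |S ∩ vs Y₀| |S ∩ vs Y₁| ≤ |K₀|`.  By `Bad` `|S| ≤ |bd E Y₀|` or `|S| ≤ |bd E Y₁|`.  Let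
`|S| ≤ |bd E Y₀|` (the other case is symmetric).  `E \ Y₀ = Y₁ ∪ (E \ Z)`, so
`bd E Y₀ ⊆ K₀ ∪ (S \ vs Y₁)` (an element of `vs Y₀ ∩ vs (E \ Z)` is in `S`).  So
`|S ∩ vs Y₁| + |S \ vs Y₁| = |S| ≤ |K₀| + |S \ vs Y₁|`.
(2) Let `|S ∩ vs Y₀| ≤ |K₀|` (the other case is symmetric, with `Y₁` and `E \ Y`).  If `x ∈ S ∩ vs Y` and
`x ∉ vs Y₀` then `x ∈ vs Z`, so `x ∈ vs Y₁ ⊆ vs (E \ Y)`, so `x ∈ K \ K₀` (`x ∉ vs Y₀`).  So
`|S ∩ vs Y| ≤ |S ∩ vs Y₀| + |K \ K₀| ≤ |K|`. -/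
def S_BadWL : Prop := ∀ (α : Type) [DecidableEq α] (E Z : Finset (α × α)) (N : ℕ), Bad E N Z →
  WL E (bd E Z)

/-- **A3.** The system: either a branch decomposition of bounded width, or a well linked set in one chain such that the
other chains have a branch decomposition of bounded width (uses A1, A2).

Proof. `N 0 = 2`, `N (j + 1) = max (N j) (n * f (N j) + 2)`; the number is `N n`; `N` is monotone.  Suppose that not
`Carv (Ed univ) (N n) (Ed univ)`.  So there is a set `T` of chains such that not `Carv (Ed T) (N |T|) (Ed T)`; take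
one with minimal `|T|`.  `T ≠ ∅` (`Ed ∅ = ∅`).  Let `|T| = j + 1`.  A1: `Bad (Ed T) (N (j + 1)) Z`; `S₀ = bd (Ed T) Z` has
at least `N (j + 1) - 1 ≥ n * f (N j) + 1` elements, all in chains of `T` (a pair of `Ed T` has both nodes in chains of
`T`).  Pigeonhole: there is `i ∈ T` such that `S = {x ∈ S₀ | c x = i}` has at least `f (N j)` elements.  `g = N j`.
`T.erase i` has `j` elements, so `Carv (Ed (T.erase i)) (N j) (Ed (T.erase i))` by the choice of `T`.  By A2 `S₀` is well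
linked, and so is every subset `S` (if `|S₀ ∩ vs Y| ≤ |K|` then `|S ∩ vs Y| ≤ |K|`). -/
def S_Sys : Prop := ∀ (n : ℕ) (f : ℕ → ℕ), ∃ N : ℕ, ∀ (α : Type) [Fintype α] [DecidableEq α]
  (B : BG α n), Carv (B.Ed Finset.univ) N (B.Ed Finset.univ) ∨
    ∃ (T : Finset (Fin n)) (i : Fin n) (g : ℕ) (S : Finset α), i ∈ T ∧ 2 ≤ g ∧ g ≤ N ∧
      Carv (B.Ed (T.erase i)) g (B.Ed (T.erase i)) ∧ (∀ x ∈ S, B.c x = i) ∧ f g ≤ S.card ∧
      WL (B.Ed T) S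

/-- **A4.** Disjoint paths from a part `J` of the chain `i` to the rest of the chain (uses Menger's theorem
`GT.SMen`, which is `GT.pMen`).

Proof. `P = {x | c x = i ∧ x ∈ J}`, `Q = {x | c x = i ∧ x ∉ J}`.  By `GT.SMen` it is enough to show `M ≤ |X|` for
`GT.Cut (Gm T) P Q L X`.  Let `E = Ed T`, `Y = {p ∈ E | p.1 ∈ L ∨ p.2 ∈ L}`, `K = vs Y ∩ vs (E \ Y)`.
(1) `K ⊆ X`: let `x ∈ K`.  `x ∉ L` (it is in a pair outside `Y`).  It is in a pair of `Y` with the other node `y ∈ L`,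
`y ≠ x`, so `Gm.Adj x y` (or `Adj y x`), so `x ∈ L ∪ X` by `Cut.far`.  (2) `S \ J ⊆ Q` is disjoint from `L`, the loops
are in `E \ Y`, so `M ≤ |S \ J| ≤ |S ∩ vs (E \ Y)|`.  (3) `J ∩ S ⊆ P ⊆ L ∪ X`; `L ∩ J ∩ S ⊆ vs Y` (loops), so
`J ∩ S ⊆ ((S ∩ vs Y) \ X) ∪ X` and `|J ∩ S| ≤ |(S ∩ vs Y) \ X| + |X|`; more precisely
`J ∩ S ⊆ (S ∩ vs Y) ∪ (X \ vs Y)`.  `WL`: if `|S ∩ vs (E \ Y)| ≤ |K|` then `M ≤ |K| ≤ |X|`.  Otherwise
`|S ∩ vs Y| ≤ |K|`, so `M ≤ |S ∩ J| ≤ |K| + |X \ vs Y| ≤ |X ∩ vs Y| + |X \ vs Y| = |X|` (`K ⊆ X ∩ vs Y`). -/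
def S_Link : Prop := ∀ (α : Type) [Fintype α] [DecidableEq α] (n : ℕ) (B : BG α n)
  (T : Finset (Fin n)) (i : Fin n) (S J : Finset α) (M : ℕ), i ∈ T → (∀ x ∈ S, B.c x = i) →
  WL (B.Ed T) S → M ≤ (S ∩ J).card → M ≤ (S \ J).card →
  ∃ ν p, GT.Lkg (B.Gm T) (Finset.univ.filter fun x => B.c x = i ∧ x ∈ J)
    (Finset.univ.filter fun x => B.c x = i ∧ x ∉ J) M ν p

/-- **A5.** Trimming the paths.

Proof. Compare `W/LinkB.lean`.  Let `k : Fin (M + 2)`.  `p k 0` is in `P` (chain `i`, in `J`), `p k (ν k)` in `Q` (chain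
`i`, not in `J`).  Let `σ k` be the largest index `s ≤ ν k` with `p k s ∈ P` and, if there is one, ... : `σ k` the
largest index with `p k s ∈ P`; `σ k < ν k`; `τ k` the smallest index `t > σ k` with `p k t ∈ Q`.  For
`σ k < s < τ k` the node `p k s` is not in `P` and not in `Q`, so `c (p k s) ≠ i`; and `c (p k s) ∈ T` (it has a
neighbour in `Gm T`).
(1) At most two `k` satisfy `τ k = σ k + 1`: then `x = p k (σ k)`, `y = p k (τ k)` are adjacent and in the chain `i`, so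
not `X x y`, so `Con x y` or `Con y x`.  If `Con x y`, `Con x' y'` with `x, x' ∈ J`, `y, y' ∉ J` in the chain `i`, `x ≠ x'`,
say `ρ x < ρ x'`: `ρ y ≤ ρ x'` (`Con x y`), so `y` is between `x` and `x'`, so `y ∈ J` by `Int`: contradiction.  The
same for `Con y x`, `Con y' x'`.
(2) So there is an injection `f` from `{0, .., M - 1}` to the other indices.  For `k' = f k` let `a k = p k' (σ k')`,
`b k = p k' (τ k')`, `Q k = {p k' s | σ k' < s < τ k'}`, not empty.  Consecutive elements of `Q k` are adjacent in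
`Gm T` and both in chains of `T.erase i`, so adjacent in `Gm (T.erase i)`: `Q k` is connected (`GT.conn_seg`).
`x = p k' (σ k' + 1) ∈ Q k` is adjacent to `a k` and in a different chain, so `X (a k) x`; the same for
`y = p k' (τ k' - 1)`: `X y (b k)`. -/
def S_Trim : Prop := ∀ (α : Type) [Fintype α] [DecidableEq α] (n : ℕ) (B : BG α n)
  (T : Finset (Fin n)) (i : Fin n) (J : Finset α) (M : ℕ) (ν : Fin (M + 2) → ℕ)
  (p : Fin (M + 2) → ℕ → α), B.Int (J.filter fun x => B.c x = i) →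
  GT.Lkg (B.Gm T) (Finset.univ.filter fun x => B.c x = i ∧ x ∈ J)
    (Finset.univ.filter fun x => B.c x = i ∧ x ∉ J) (M + 2) ν p →
  ∃ (a b : ℕ → α) (Q : ℕ → Finset α),
    (∀ k < M, B.c (a k) = i ∧ B.c (b k) = i ∧ a k ∈ J ∧ b k ∉ J) ∧
    (∀ k < M, ∀ l < M, k ≠ l → a k ≠ a l ∧ b k ≠ b l ∧ Disjoint (Q k) (Q l)) ∧
    ∀ k < M, (∀ x ∈ Q k, B.c x ∈ T.erase i) ∧ Conn (B.Gm (T.erase i)) (Q k : Set α) ∧
      (∃ x ∈ Q k, B.X (a k) x) ∧ ∃ y ∈ Q k, B.X y (b k)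

/-- **A6.** Few disjoint connected sets cross a small boundary.

Proof. Let `i ∈ I`, `Q = Q i`, `E = Ed T`.  `BdQ`: some node of `Q` is in `bd E F`.  Otherwise no node `x ∈ Q` is in a pair of
`F` and in a pair of `E \ F`; the loops `(x, x)` are in `E`.  Let `Q' = {x ∈ Q | (x, x) ∈ F}`.  If `x ∈ Q'`, `y ∈ Q`, `Adj x y`
then `(x, y) ∈ E`, and as `x ∉ vs (E \ F)`: `(x, y) ∈ F`, so `y ∈ vs F`, so `(y, y) ∉ E \ F`, `y ∈ Q'`.  In the same way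
`x ∉ Q'`, `y ∈ Q'` is impossible.  By `Conn` `Q' = ∅` or `Q' = Q`.  The first hypothesis gives a pair of `F` with both
nodes in `Q`, so `Q' ≠ ∅`; the second one gives `Q' ≠ Q`: contradiction.
So choose `x i ∈ Q i ∩ bd E F`; the `x i` are different as the `Q i` are disjoint. -/
def S_Cross : Prop := ∀ (α : Type) [Fintype α] [DecidableEq α] (n : ℕ) (B : BG α n)
  (T : Finset (Fin n)) (F : Finset (α × α)) (I : Finset ℕ) (Q : ℕ → Finset α), F ⊆ B.Ed T →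
  (∀ i ∈ I, Conn (B.Gm T) (Q i : Set α) ∧ ∀ x ∈ Q i, B.c x ∈ T) →
  (∀ i ∈ I, ∀ j ∈ I, i ≠ j → Disjoint (Q i) (Q j)) →
  (∀ i ∈ I, (∃ p ∈ F, p.1 ∈ Q i ∧ p.2 ∈ Q i) ∧ ∃ p ∈ B.Ed T, p ∉ F ∧ p.1 ∈ Q i ∧ p.2 ∈ Q i) →
  I.card ≤ (bd (B.Ed T) F).card

/-- **A7.** Disjoint regions (uses A6).

Proof. Copy `W/Reg.lean`.  `E = Ed T`.  For a set `A ⊆ E` write `Q i ≺ A` if all pairs of `E` with both nodes in `Q i` are in
`A`, and `m(A)` for the number of the `i < M'` with `Q i ≺ A`.  (There is at least one such pair, a loop, as `Q i ≠ ∅`; the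
pairs for different `i` are different.)  A set `R` is a region if `|bd E R| ≤ 2 g`.  INVARIANT: for every `A` with
`Carv E g A` there are `C ⊆ A`, a number `ν`, a finite set `J` of indices `< M'` and sets `R i` (`i ∈ J`) such that
(i) `|bd E C| ≤ g`, and no `i` satisfies `Q i ≺ A \ C`;
(ii) `Q i ≺ R i ⊆ C`, `R i` is a region (`i ∈ J`), the sets `R i` are pairwise disjoint;
(iii) `ν = 0`, `C = ∅`, `J = ∅`, or `1 ≤ ν`, `ν + 1 ≤ 2 |J|` and `m(C) + g ≤ 2 g ν`.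
(i) and (iii) give `m(A) ≤ 2 g ν`: if `Q i ≺ A` and not `Q i ≺ C` then some pair of `Q i` is not in `C`, and some pair is
(by (i)); by A6 (for `F = C`) there are at most `|bd E C| ≤ g` such `i`, so `m(A) ≤ m(C) + g`; if `C = ∅` then
`m(A) = 0`.  Induction on `Carv`:
`A = ∅`: `ν = 0`, `C = ∅`.  `A = {e}`: if no `Q i ≺ A`: `ν = 0`, `C = ∅`; otherwise exactly one: `C = A`, `R i = A`,
`J = {i}`, `ν = 1`; `m(C) + g = 1 + g ≤ 2 g`, `|bd E {e}| ≤ 2 ≤ g`.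
`A = A₁ ∪ A₂` with `(C₁, ν₁, J₁, R₁)`, `(C₂, ν₂, J₂, R₂)`.  `|bd E A| ≤ g`.  Let `q` be the number of the `i` with
`Q i ≺ A` and neither `Q i ≺ A₁` nor `Q i ≺ A₂`: `q ≤ |bd E A₁| ≤ g` by A6 (every set with a `Carv` has a boundary of at
most `g`; use `2 ≤ g` for single pairs).
(a) `ν₁, ν₂ ≥ 1`: `C = A`, `J = J₁ ∪ J₂`, `ν = ν₁ + ν₂ + 1`.
(b) `ν₂ = 0` (`C₂ = ∅`, so no `Q i ≺ A₂`), `ν₁ ≥ 1`: if no `Q i ≺ A \ C₁` keep `C = C₁`, `ν = ν₁`, `J = J₁`.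
Otherwise choose such an `i`, `R i = A \ C₁`: `bd E (A \ C₁) ⊆ bd E A ∪ bd E C₁`; `C = A`, `J = J₁ ∪ {i}`,
`ν = ν₁ + 1`: `m(A) + g ≤ m(A₁) + q + g ≤ 2 g ν₁ + 2 g`.
(c) `ν₁ = 0`, `ν₂ ≥ 1`: the same.  (d) `ν₁ = ν₂ = 0`: `m(A) ≤ q ≤ g`.  If `m(A) = 0` then `C = ∅`, `ν = 0`; otherwise
`C = A`, `R i = A`, `J = {i}`, `ν = 1`.
For `A = E`: `m(A) = M' ≤ 2 g ν`.  If `M = 0` there is nothing to show.  Otherwise `4 g M ≤ 2 g ν`, so
`2 M ≤ ν ≤ 2 |J| - 1`, so `M ≤ |J|`; enumerate `J`. -/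
def S_Reg : Prop := ∀ (α : Type) [Fintype α] [DecidableEq α] (n : ℕ) (B : BG α n)
  (T : Finset (Fin n)) (g M M' : ℕ) (Q : ℕ → Finset α), 2 ≤ g → Carv (B.Ed T) g (B.Ed T) →
  (∀ i < M', Conn (B.Gm T) (Q i : Set α) ∧ ∀ x ∈ Q i, B.c x ∈ T) →
  (∀ i < M', ∀ j < M', i ≠ j → Disjoint (Q i) (Q j)) → 4 * g * M ≤ M' →
  ∃ (j : ℕ → ℕ) (R : ℕ → Finset (α × α)),
    (∀ k < M, j k < M' ∧ R k ⊆ B.Ed T ∧ (∀ p ∈ B.Ed T, p.1 ∈ Q (j k) → p.2 ∈ Q (j k) → p ∈ R k) ∧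
      (bd (B.Ed T) (R k)).card ≤ 2 * g) ∧
    ∀ k < M, ∀ l < M, k ≠ l → j k ≠ j l ∧ Disjoint (R k) (R l)

/-- **A8.** Cleaned regions: disjoint sets `P k` of nodes with few ends of runs (no other statement is used).

Proof. `E = Ed T`, `P k = {x ∈ vs (R k) | x ∉ bd E (R k) ∨ x ∈ Q k}`.  `Q k ⊆ P k`: the loop of `x ∈ Q k` is in `R k`.
Nodes of `P k` are in chains of `T`.  Disjoint: if `x ∈ P k ∩ P l`, `k ≠ l`, then `x ∈ vs (R l) ⊆ vs (E \ R k)`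
(`R l` is disjoint from `R k`, `⊆ E`), so `x ∈ bd E (R k)`, so `x ∈ Q k`; in the same way `x ∈ Q l`: contradiction.
The run ends: `U = {x ∈ P k | ∃ z, Con x z ∧ z ∉ P k}`.  Let `x ∈ U` with `z`.  `c z = c x ∈ T`, so `(x, z) ∈ E`.  If
`(x, z) ∉ R k` then `x ∈ bd E (R k)`.  If `(x, z) ∈ R k` then `z ∈ vs (R k)`, `z ∉ P k`, so `z ∈ bd E (R k)`.  The `z` is
determined by `x` (`Con x z`, `Con x z'`: `ρ z ≤ ρ z' ≤ ρ z`, `inj`), and `x` by `z` (the same).  So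
`|U| ≤ 2 |bd E (R k)| ≤ 4 g`: map `x` to `(true, x)` if `x ∈ bd`, otherwise to `(false, z)`, injective. -/
def S_Clean : Prop := ∀ (α : Type) [Fintype α] [DecidableEq α] (n : ℕ) (B : BG α n)
  (T : Finset (Fin n)) (g M : ℕ) (Q : ℕ → Finset α) (R : ℕ → Finset (α × α)),
  (∀ k < M, (∀ x ∈ Q k, B.c x ∈ T) ∧ R k ⊆ B.Ed T ∧
    (∀ p ∈ B.Ed T, p.1 ∈ Q k → p.2 ∈ Q k → p ∈ R k) ∧ (bd (B.Ed T) (R k)).card ≤ 2 * g) →
  (∀ k < M, ∀ l < M, k ≠ l → Disjoint (Q k) (Q l) ∧ Disjoint (R k) (R l)) →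
  ∃ P : ℕ → Finset α, (∀ k < M, Q k ⊆ P k ∧ (∀ x ∈ P k, B.c x ∈ T) ∧
    {x | x ∈ P k ∧ ∃ z, B.Con x z ∧ z ∉ P k}.ncard ≤ 4 * g) ∧
    ∀ k < M, ∀ l < M, k ≠ l → Disjoint (P k) (P l)

/-- **A9.** The number of the runs of `P`.

Proof. Compare `W/Runs.lean`.  For `x ∈ T'` let `K x = {z | c z = c x, ρ x < ρ z, z ∉ P}`.  If `K x = ∅` let
`φ x = Sum.inl (c x)`.  Otherwise let `z` be the element of `K x` with the smallest `ρ`, `y` the element of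
`{y | c y = c x, ρ y < ρ z}` with the largest `ρ` (it contains `x`).  `Con y z`.  `y ∈ P`: otherwise `y ≠ x`, so
`ρ x < ρ y`, `y ∈ K x`, `ρ y < ρ z`: contradiction.  `φ x = Sum.inr y`, an element of
`{y | y ∈ P ∧ ∃ z, Con y z ∧ z ∉ P}`.  `φ` is injective on `T'`: let `φ x = φ x'`, `x ≠ x'`; they are in the same chain
(`c y = c x`); by symmetry `ρ x < ρ x'`.  Let `c u = c x`, `ρ x ≤ ρ u ≤ ρ x'`; we show `u ∈ P`, so `Run P x x'`,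
contradiction.  `u = x`: clear (`x ∈ P`).  If `ρ x < ρ u` and `u ∉ P` then `u ∈ K x`, so `φ x = Sum.inr y`, the
smallest element `z` of `K x` satisfies `ρ z ≤ ρ u ≤ ρ x'`, and `ρ y < ρ z`; but `φ x' = Sum.inr y` and `x'` is in the
set whose largest element is `y`: `ρ x' ≤ ρ y`: contradiction. -/
def S_Runs : Prop := ∀ (α : Type) [Fintype α] [DecidableEq α] (n : ℕ) (B : BG α n)
  (P T' : Finset α), (∀ x ∈ T', x ∈ P) → (∀ x ∈ T', ∀ y ∈ T', x ≠ y → ¬ B.Run P x y) →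
  T'.card ≤ n + {x | x ∈ P ∧ ∃ z, B.Con x z ∧ z ∉ P}.ncard

/-- **A10.** Rerouting inside a region (uses A9).

Proof. Copy `W/Reroute.lean` (C4 of `W/SpecA.lean`) with `X` instead of `Ess`, `P` instead of `R ∩ U`. -/
def S_Reroute : Prop := ∀ (α : Type) [Fintype α] [DecidableEq α] (n : ℕ) (B : BG α n)
  (T : Finset (Fin n)) (P Q : Finset α) (h : ℕ) (x y : α),
  {x | x ∈ P ∧ ∃ z, B.Con x z ∧ z ∉ P}.ncard ≤ h → Q ⊆ P → Conn (B.Gm T) (Q : Set α) →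
  x ∈ Q → y ∈ Q →
  ∃ (s : ℕ) (a b : ℕ → α), 1 ≤ s ∧ s ≤ n + h ∧ a 0 = x ∧ b (s - 1) = y ∧
    (∀ j < s, B.Run P (a j) (b j)) ∧ ∀ j, j + 1 < s → B.X (b j) (a (j + 1))

/-- **A11.** Pigeonhole for the itineraries.

Proof. Compare `W/TrackOf.lean` (C5 of `W/SpecA.lean`).  For `k < M` define `A'' k j`, `B'' k j` (`j ≤ s k + 1`):
`A'' k 0 = B'' k 0 = a k`; `A'' k (j + 1) = A k j`, `B'' k (j + 1) = B k j` for `j < s k`; `A'' k j = B'' k j = b k` for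
`j ≥ s k + 1`.  The type of `k` is the pair of `s k` (at most `n + h`) and the function `j ↦ c (A'' k j)`,
`j : Fin (n + h + 2)`, and the truth value of `ρ (a k) < ρ (b k)`.  There are at most
`τ = (n + h + 1) * (n ^ (n + h + 2)) * 2` types; `M = τ * m`.  So there are `m` indices `κ 0, .., κ (m - 1) < M`, all
different, of the same type.  `r = s (κ 0) + 1`, `A' k j = A'' (κ k) j`, `B' k j = B'' (κ k) j`,
`χ j = c (A' 0 j)`.  `sep`, rails `0` and `r`: `a (κ k) ≠ a (κ k')` are in the same chain, so the `ρ` are different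
(`inj`).  `sep`, rail `j + 1`, `j < s`: as in `W/TrackOf.lean` (the runs are in disjoint sets `P`).  `inn`: the nodes of
`P (κ k)` are in chains of `T.erase i`. -/
def S_TrackOf : Prop := ∀ n h m : ℕ, ∃ M : ℕ, ∀ (α : Type) [Fintype α] [DecidableEq α]
  (G : BG α n) (T : Finset (Fin n)) (i : Fin n) (a b : ℕ → α) (P : ℕ → Finset α)
  (s : ℕ → ℕ) (A B : ℕ → ℕ → α), (∀ k < M, G.c (a k) = i ∧ G.c (b k) = i ∧ a k ≠ b k) →
  (∀ k < M, ∀ l < M, k ≠ l → a k ≠ a l ∧ b k ≠ b l ∧ Disjoint (P k) (P l)) →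
  (∀ k < M, ∀ x ∈ P k, G.c x ∈ T.erase i) →
  (∀ k < M, 1 ≤ s k ∧ s k ≤ n + h ∧ G.X (a k) (A k 0) ∧ G.X (B k (s k - 1)) (b k) ∧
    (∀ j < s k, G.Run (P k) (A k j) (B k j)) ∧ ∀ j, j + 1 < s k → G.X (B k j) (A k (j + 1))) →
  ∃ (r : ℕ) (κ : ℕ → ℕ) (A' B' : ℕ → ℕ → α) (χ : ℕ → Fin n),
    r ≤ n + h + 1 ∧ (∀ k < m, κ k < M ∧ A' k 0 = a (κ k) ∧ A' k r = b (κ k)) ∧
    ((∀ k < m, G.ρ (a (κ k)) < G.ρ (b (κ k))) ∨ ∀ k < m, G.ρ (b (κ k)) < G.ρ (a (κ k))) ∧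
    VTr G i m r A' B' χ

/-- **A12.** Bundles from an interval `J` of a chain to the rest of the chain (uses A5, A7, A8, A10, A11).

Proof. `h = 4 g`, `M₁` the number of A11 for `n, h, m`, `M = 4 g M₁`; the number is `M + 2`.  A5 (for
`J`, the linkage) gives `a, b, Q`.  A7 for `T.erase i`, `M₁`, `M' = M`: `j`, `R`.  A8 for `Q ∘ j`, `R`: `P`.  For every
`k < M₁` A10 (for `T.erase i`, `P k`, `Q (j k)`, `h`, the nodes `x, y ∈ Q (j k)` of A5) gives `s k`, `A k`, `B k`.  A11 for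
`a ∘ j`, `b ∘ j`, `P`.  If `x ∈ J` is `a (..)`, `y ∉ J` is `b (..)` and `ρ x < ρ y` for all `k`: for `x' ∈ J` in the
chain `i` `ρ x' < ρ y` (otherwise `y` is between `x` and `x'`, in `J` by `Int`); the other alternative is the same.  (In
the conclusion: `κ k < M` and the ends are `a (κ' k) ∈ J`, `b (κ' k) ∉ J`.) -/
def S_Bun : Prop := ∀ n g m : ℕ, ∃ M : ℕ, ∀ (α : Type) [Fintype α] [DecidableEq α] (G : BG α n)
  (T : Finset (Fin n)) (i : Fin n) (J : Finset α) (ν : Fin M → ℕ) (p : Fin M → ℕ → α), 2 ≤ g →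
  Carv (G.Ed (T.erase i)) g (G.Ed (T.erase i)) → G.Int (J.filter fun x => G.c x = i) →
  GT.Lkg (G.Gm T) (Finset.univ.filter fun x => G.c x = i ∧ x ∈ J)
    (Finset.univ.filter fun x => G.c x = i ∧ x ∉ J) M ν p →
  ∃ (r : ℕ) (A B : ℕ → ℕ → α) (χ : ℕ → Fin n), r ≤ n + 4 * g + 1 ∧ VTr G i m r A B χ ∧
    (∀ k < m, A k 0 ∈ J ∧ A k r ∉ J) ∧
    ((∀ k < m, ∀ x ∈ J, G.c x = i → G.ρ x < G.ρ (A k r)) ∨
      ∀ k < m, ∀ x ∈ J, G.c x = i → G.ρ (A k r) < G.ρ x)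

end Pool.Agent.MPd439b2.VX
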